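import Pool.Agent.H697.UG.PolyAlg

/-!
# The algorithm for clustered games
-/

namespace Pool.Agent.H697.CL

open Pool.Agent.NPC
open Pool.Agent.H697.UG (Game Edge degL degR hasE poly_hasE poly_degL poly_degR)

/-- The number of left vertices which are joined to `v` or to `v'`. -/
def un (J : Game) (v v' : ℕ) : ℕ :=
  (J.filter fun e => decide (e.1.2 = v) || (decide (e.1.2 = v') && !(hasE J e.1.1 v))).length

/-- The integral weight. -/
def wt (Q : ℕ) (J : Game) (z u v v' : ℕ) : ℕ :=
  Q / (degL J z * (degL J u * (degL J u * un J v v')))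

/-- The weight of the pair of edges `(u, v)`, `(z, v)`. -/
def pw (Q : ℕ) (J : Game) (z u v : ℕ) : ℕ :=
  ((J.filter fun e' => decide (e'.1.1 = u) && hasE J z e'.1.2).map
    fun e' => wt Q J z u v e'.1.2).sum

/-- The edge `e = (u, v)` with the label `x` of `u` agrees with the edge `(z, v)` with the label `a`
of `z`. -/
def agr (J : Game) (z a x : ℕ) (e : Edge) : Bool :=
  J.any fun f => decide (f.1 = (z, e.1.2)) && (decide (e.2[x]? = f.2[a]?) && (f.2[a]?).isSome)

/-- The score of the label `x` of `u` for the label `a` of the leader `z`. -/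
def inn (Q : ℕ) (J : Game) (z a u x : ℕ) : ℕ :=
  ((J.filter fun e => decide (e.1.1 = u) && agr J z a x e).map fun e => pw Q J z u e.1.2).sum

/-- The greatest of the values `f 0, ..., f (q - 1)`. -/
def best (f : ℕ → ℕ) : ℕ → ℕ
  | 0 => 0
  | n + 1 => max (best f n) (f n)

/-- The score of the label `a` of the leader `z`. -/
def mid (q Q : ℕ) (J : Game) (z a : ℕ) : ℕ :=
  (J.map fun e => best (fun x => inn Q J z a e.1.1 x) q).sum

/-- The score of the game. -/
def total (q Q : ℕ) (J : Game) : ℕ :=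
  (J.map fun e => best (fun a => mid q Q J e.1.1 a) q).sum

/-- The answer of the algorithm. -/
def acc (q A B C : ℕ) (J : Game) : Bool :=
  decide (B * (C * J.length ^ 3) * J.length ≤ A * total q (C * J.length ^ 3) J)

section
variable {α : Type} [TEnc α]

theorem poly_lsum {l : α → Game} {F : α → Edge → ℕ} (hl : Poly l)
    (hF : Poly (fun p : α × Edge => F p.1 p.2)) : Poly (fun a => ((l a).map (F a)).sum) :=
  Poly.sum (NPC.Poly.map hl hF)

theorem poly_best {f : α → ℕ → ℕ} (q : ℕ) (hf : ∀ n, Poly (fun a => f a n)) :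
    Poly (fun a => best (f a) q) := by
  induction q with
  | zero => exact NPC.Poly.const 0
  | succ n ih => exact Poly.max ih (hf n)

theorem poly_un {J : α → Game} {v v' : α → ℕ} (hJ : Poly J) (hv : Poly v) (hv' : Poly v') :
    Poly (fun a => un (J a) (v a) (v' a)) := by
  unfold un
  refine Poly.length (Poly.filter (p := fun a (e : Edge) => decide (e.1.2 = v a) ||
    (decide (e.1.2 = v' a) && !(hasE (J a) e.1.1 (v a)))) hJ ?_)
  have i : Poly (fun p : α × Edge => p) := Poly.id
  exact Poly.or (Poly.decide_eq (Poly.snd (Poly.fst (Poly.snd i))) (hv.comp (Poly.fst i)))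
    (Poly.and (Poly.decide_eq (Poly.snd (Poly.fst (Poly.snd i))) (hv'.comp (Poly.fst i)))
      (Poly.not (poly_hasE (hJ.comp (Poly.fst i)) (Poly.fst (Poly.fst (Poly.snd i)))
        (hv.comp (Poly.fst i)))))

theorem poly_wt {Q : α → ℕ} {J : α → Game} {z u v v' : α → ℕ} (hQ : Poly Q) (hJ : Poly J)
    (hz : Poly z) (hu : Poly u) (hv : Poly v) (hv' : Poly v') :
    Poly (fun a => wt (Q a) (J a) (z a) (u a) (v a) (v' a)) := by
  unfold wt
  exact Poly.div hQ (Poly.mul (poly_degL hJ hz) (Poly.mul (poly_degL hJ hu)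
    (Poly.mul (poly_degL hJ hu) (poly_un hJ hv hv'))))

theorem poly_pw {Q : α → ℕ} {J : α → Game} {z u v : α → ℕ} (hQ : Poly Q) (hJ : Poly J)
    (hz : Poly z) (hu : Poly u) (hv : Poly v) :
    Poly (fun a => pw (Q a) (J a) (z a) (u a) (v a)) := by
  unfold pw
  have i : Poly (fun p : α × Edge => p) := Poly.id
  refine poly_lsum (F := fun a (e' : Edge) => wt (Q a) (J a) (z a) (u a) (v a) e'.1.2)
    (Poly.filter (p := fun a (e' : Edge) => decide (e'.1.1 = u a) && hasE (J a) (z a) e'.1.2)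
      hJ ?_) ?_
  · exact Poly.and (Poly.decide_eq (Poly.fst (Poly.fst (Poly.snd i))) (hu.comp (Poly.fst i)))
      (poly_hasE (hJ.comp (Poly.fst i)) (hz.comp (Poly.fst i)) (Poly.snd (Poly.fst (Poly.snd i))))
  · exact poly_wt (hQ.comp (Poly.fst i)) (hJ.comp (Poly.fst i)) (hz.comp (Poly.fst i))
      (hu.comp (Poly.fst i)) (hv.comp (Poly.fst i)) (Poly.snd (Poly.fst (Poly.snd i)))

theorem poly_agr {J : α → Game} {z a x : α → ℕ} {e : α → Edge} (hJ : Poly J)
    (hz : Poly z) (ha : Poly a) (hx : Poly x) (he : Poly e) :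
    Poly (fun s => agr (J s) (z s) (a s) (x s) (e s)) := by
  unfold agr
  refine Poly.any (p := fun s (f : Edge) => decide (f.1 = (z s, (e s).1.2)) &&
    (decide ((e s).2[x s]? = f.2[a s]?) && (f.2[a s]?).isSome)) hJ ?_
  have he' : Poly (fun p : α × Edge => e p.1) := he.comp (Poly.fst Poly.id)
  have h2 : Poly (fun p : α × Edge => p.2) := Poly.snd Poly.id
  have j : Poly (fun p : α × Edge => p.2.2[a p.1]?) :=
    Poly.getElem? (Poly.snd h2) (ha.comp (Poly.fst Poly.id))
  exact Poly.and (Poly.decide_eq (Poly.fst h2)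
    (Poly.pair (hz.comp (Poly.fst Poly.id)) (Poly.snd (Poly.fst he'))))
    (Poly.and (Poly.decide_eq (Poly.getElem? (Poly.snd he') (hx.comp (Poly.fst Poly.id))) j)
      (Poly.isSome j))

theorem poly_inn {Q : α → ℕ} {J : α → Game} {z a u x : α → ℕ} (hQ : Poly Q) (hJ : Poly J)
    (hz : Poly z) (ha : Poly a) (hu : Poly u) (hx : Poly x) :
    Poly (fun s => inn (Q s) (J s) (z s) (a s) (u s) (x s)) := by
  unfold inn
  have i : Poly (fun p : α × Edge => p) := Poly.id
  refine poly_lsum (F := fun s (e : Edge) => pw (Q s) (J s) (z s) (u s) e.1.2)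
    (Poly.filter (p := fun s (e : Edge) => decide (e.1.1 = u s) &&
      agr (J s) (z s) (a s) (x s) e) hJ ?_) ?_
  · exact Poly.and (Poly.decide_eq (Poly.fst (Poly.fst (Poly.snd i))) (hu.comp (Poly.fst i)))
      (poly_agr (hJ.comp (Poly.fst i)) (hz.comp (Poly.fst i)) (ha.comp (Poly.fst i))
        (hx.comp (Poly.fst i)) (Poly.snd i))
  · exact poly_pw (hQ.comp (Poly.fst i)) (hJ.comp (Poly.fst i)) (hz.comp (Poly.fst i))
      (hu.comp (Poly.fst i)) (Poly.snd (Poly.fst (Poly.snd i)))

theorem poly_mid (q : ℕ) {Q : α → ℕ} {J : α → Game} {z a : α → ℕ} (hQ : Poly Q) (hJ : Poly J)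
    (hz : Poly z) (ha : Poly a) :
    Poly (fun s => mid q (Q s) (J s) (z s) (a s)) := by
  unfold mid
  have i : Poly (fun p : α × Edge => p) := Poly.id
  refine poly_lsum (F := fun s (e : Edge) =>
    best (fun x => inn (Q s) (J s) (z s) (a s) e.1.1 x) q) hJ ?_
  exact poly_best (f := fun (p : α × Edge) x => inn (Q p.1) (J p.1) (z p.1) (a p.1) p.2.1.1 x) q
    fun n => poly_inn (hQ.comp (Poly.fst i)) (hJ.comp (Poly.fst i)) (hz.comp (Poly.fst i))
      (ha.comp (Poly.fst i)) (Poly.fst (Poly.fst (Poly.snd i))) (NPC.Poly.const n)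

theorem poly_total (q : ℕ) {Q : α → ℕ} {J : α → Game} (hQ : Poly Q) (hJ : Poly J) :
    Poly (fun s => total q (Q s) (J s)) := by
  unfold total
  have i : Poly (fun p : α × Edge => p) := Poly.id
  refine poly_lsum (F := fun s (e : Edge) =>
    best (fun a => mid q (Q s) (J s) e.1.1 a) q) hJ ?_
  exact poly_best (f := fun (p : α × Edge) a => mid q (Q p.1) (J p.1) p.2.1.1 a) q
    fun n => poly_mid q (hQ.comp (Poly.fst i)) (hJ.comp (Poly.fst i))
      (Poly.fst (Poly.fst (Poly.snd i))) (NPC.Poly.const n)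

end

theorem poly_acc (q A B C : ℕ) : Poly (acc q A B C) := by
  unfold acc
  have hl : Poly (fun J : Game => J.length) := Poly.length Poly.id
  have hQ : Poly (fun J : Game => C * J.length ^ 3) :=
    (Poly.mul (NPC.Poly.const C) (Poly.mul (Poly.mul hl hl) hl)).congr fun J => by ring
  exact Poly.decide_le (Poly.mul (Poly.mul (NPC.Poly.const B) hQ) hl)
    (Poly.mul (NPC.Poly.const A) (poly_total q hQ Poly.id))

end Pool.Agent.H697.CL
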