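import Pool.Agent.H697.CL.Link
import Pool.Agent.H697.LC.Hard
import Pool.Agent.H697.UG.Hard

/-!
# Clustered games are easy
-/

namespace Pool.Agent.H697.CL

open Finset Pool.Agent.NPC
open Pool.Agent.H697.UG (Game Edge degL degR hasE Simple edges mem_edges card_edges)

/-- The similarity of two right vertices: the number of their common neighbours, divided by the
number of the vertices which are neighbours of at least one of them. -/
noncomputable def jac (J : Game) (v v' : ℕ) : ℝ :=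
  ((nb (edges J) v ∩ nb (edges J) v').card : ℝ) / (nb (edges J) v ∪ nb (edges J) v').card

/-- The clustering coefficient: the mean value of the similarity of `v` and `v'` for a random edge
`(u, v)` and a random neighbour `v'` of `u` (possibly `v' = v`). -/
noncomputable def clus (J : Game) : ℝ :=
  (∑ e ∈ edges J, (∑ v' ∈ nR (edges J) e.1, jac J e.2 v') / (nR (edges J) e.1).card) /
    (edges J).card

/-- The game is simple and its clustering coefficient is at least `γ`. -/
def Clustered (γ : ℝ) (J : Game) : Prop := Simple J ∧ γ ≤ clus J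

theorem clus_mul {J : Game} (hJ : (edges J).Nonempty) : clus J * (edges J).card =
    ∑ e ∈ edges J, ∑ f ∈ (edges J).filter (fun f => f.2 = e.2), om (edges J) e f := by
  have hpos : (0 : ℝ) < (edges J).card := by exact_mod_cast card_pos.2 hJ
  unfold clus
  rw [div_mul_cancel₀ _ hpos.ne']
  refine sum_congr rfl fun e _ => ?_
  rw [sum_om_left, sum_div]
  refine sum_congr rfl fun v' _ => ?_
  unfold jac
  rw [div_div, mul_comm]

theorem edges_nonempty {J : Game} (hJ : J ≠ []) : (edges J).Nonempty := by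
  obtain ⟨e, he⟩ := List.exists_mem_of_ne_nil J hJ
  exact ⟨e.1, mem_edges.2 ⟨e, he, rfl⟩⟩

open Pool.Agent.H697.LC in
/-- Clustered projection games are easy. -/
theorem easy_LC (d : ℕ) {q₁ q₂ : ℕ} (hq₁ : 0 < q₁) (hq₂ : 0 < q₂) {γ ε δ : ℝ}
    (h : 2 * ε + δ < γ) : Easy (Clustered γ) (Yes d q₁ q₂ ε) (No d q₁ q₂ δ) := by
  classical
  have hpos : ∀ J : Game, J ≠ [] → (0 : ℝ) < J.length := fun J hJ => by
    exact_mod_cast List.length_pos_iff.2 hJ
  rcases lt_or_ge δ 0 with hδ | hδ
  · refine ⟨fun _ => True, inPP_of (P := fun _ : Game => True) (d := fun _ : Game => true)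
      (NPC.Poly.const true) fun _ => by simp, fun J _ => ⟨fun _ => trivial, ?_⟩⟩
    rintro ⟨hG, hno⟩ -
    have h1 := hno (fun _ => ⟨0, hq₁⟩) (fun _ => ⟨0, hq₂⟩)
    have h2 := hpos J hG.1
    have h3 : (0 : ℝ) ≤ numSat J (fun _ => (⟨0, hq₁⟩ : Fin q₁)) (fun _ => (⟨0, hq₂⟩ : Fin q₂)) := by
      positivity
    nlinarith
  obtain ⟨r, hr1, hr2⟩ := exists_rat_btwn (show δ < γ - 2 * ε by linarith)
  have hr0 : (0 : ℝ) < r := lt_of_le_of_lt hδ hr1
  have hr0' : 0 < r := by exact_mod_cast hr0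
  set A := r.den with hA
  set B := r.num.toNat with hB
  have hAB : (A : ℝ) * r = B := by
    have h1 : (B : ℤ) = r.num := Int.toNat_of_nonneg (Rat.num_nonneg.2 hr0'.le)
    have h2 : (B : ℝ) = (r.num : ℝ) := by exact_mod_cast h1
    rw [h2]
    have h3 := Rat.den_mul_eq_num r
    exact_mod_cast h3
  have hApos : (0 : ℝ) < A := by exact_mod_cast r.den_pos
  obtain ⟨C, hC⟩ := exists_nat_gt (1 / (γ - 2 * ε - r))
  have hgap : 0 < γ - 2 * ε - r := by linarith
  have hC1 : 1 ≤ C * (γ - 2 * ε - r) := by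
    rw [div_lt_iff₀ hgap] at hC
    exact hC.le
  have hC0 : (0 : ℝ) < C := lt_trans (by positivity) hC
  refine ⟨fun J => acc q₁ A B C J = true, inPP_of (poly_acc q₁ A B C) fun _ => Iff.rfl, ?_⟩
  rintro J ⟨hS, hcl⟩
  constructor
  · rintro ⟨hG, L, M, hLM⟩
    obtain ⟨π, hπ⟩ := exists_pi hS hq₂ hG
    have hm := hpos J hG.1
    have hE : ((edges J).card : ℝ) = J.length := by exact_mod_cast card_edges hS
    have h1 := complete (E := edges J) π L M
    rw [← clus_mul (edges_nonempty hG.1), numE_eq hS hπ, hE] at h1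
    have h2 : (γ - 2 * ε) * J.length ≤ T π (edges J) L (fun _ u => L u) := by nlinarith
    have h3 := (tot_bounds hS hπ (C * J.length ^ 3) L (fun _ u => L u)).2
    have h4 : (tot (C * J.length ^ 3) J L (fun _ u => L u) : ℝ) ≤
        total q₁ (C * J.length ^ 3) J := by exact_mod_cast tot_le hS _ _ _
    unfold acc
    rw [decide_eq_true_eq]
    have h5 : ((B * (C * J.length ^ 3) * J.length : ℕ) : ℝ) ≤
        ((A * total q₁ (C * J.length ^ 3) J : ℕ) : ℝ) := by
      push_cast at h3 ⊢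
      have h6 : (C : ℝ) * J.length ^ 3 * ((γ - 2 * ε) * J.length) ≤
          C * J.length ^ 3 * T π (edges J) L (fun _ u => L u) := by gcongr
      have h7 : (1 : ℝ) * (J.length : ℝ) ^ 4 ≤ C * (γ - 2 * ε - r) * (J.length : ℝ) ^ 4 :=
        mul_le_mul_of_nonneg_right hC1 (by positivity)
      have h8 : r * (C * (J.length : ℝ) ^ 3) * J.length ≤
          total q₁ (C * J.length ^ 3) J := by nlinarith
      calc (B : ℝ) * (C * (J.length : ℝ) ^ 3) * J.length =
            A * (r * (C * (J.length : ℝ) ^ 3) * J.length) := by rw [← hAB]; ring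
        _ ≤ _ := by gcongr
    exact_mod_cast h5
  · rintro ⟨hG, hno⟩ hacc
    obtain ⟨π, hπ⟩ := exists_pi hS hq₂ hG
    have hm := hpos J hG.1
    obtain ⟨a, X, haX⟩ := exists_tot hS hq₁ (C * J.length ^ 3)
    have : Nonempty (Fin q₁) := ⟨⟨0, hq₁⟩⟩
    obtain ⟨L, M, hLM⟩ := sound (E := edges J) π a X
    rw [numE_eq hS hπ] at hLM
    have h1 := hno L M
    have h2 := (tot_bounds hS hπ (C * J.length ^ 3) a X).1
    rw [← haX] at h2
    unfold acc at hacc
    rw [decide_eq_true_eq] at hacc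
    have h3 : ((B * (C * J.length ^ 3) * J.length : ℕ) : ℝ) ≤
        ((A * total q₁ (C * J.length ^ 3) J : ℕ) : ℝ) := by exact_mod_cast hacc
    push_cast at h2 h3
    have h4 : (A : ℝ) * (r * (C * (J.length : ℝ) ^ 3) * J.length) ≤
        A * total q₁ (C * J.length ^ 3) J := by
      calc (A : ℝ) * (r * (C * (J.length : ℝ) ^ 3) * J.length) =
            B * (C * (J.length : ℝ) ^ 3) * J.length := by rw [← hAB]; ring
        _ ≤ _ := h3
    have h5 := le_of_mul_le_mul_left h4 hApos
    have hQ : (0 : ℝ) < C * (J.length : ℝ) ^ 3 := by positivity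
    have h6 : (C * (J.length : ℝ) ^ 3) * (r * J.length) ≤
        (C * (J.length : ℝ) ^ 3) * (δ * J.length) := by
      calc (C * (J.length : ℝ) ^ 3) * (r * J.length) = r * (C * (J.length : ℝ) ^ 3) * J.length := by
            ring
        _ ≤ _ := h5
        _ ≤ _ := h2
        _ ≤ (C * (J.length : ℝ) ^ 3) * (δ * J.length) := by
            gcongr
            exact hLM.trans h1
    have h7 := le_of_mul_le_mul_left h6 hQ
    have h8 := le_of_mul_le_mul_right h7 hm
    linarith

/-- A unique game is a 1-to-1 game. -/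
theorem isGame_LC {q : ℕ} {I : Game} (h : UG.IsGame q I) : LC.IsGame 1 q q I :=
  ⟨h.1, fun e he => ⟨(h.2 e he).1, (h.2 e he).2.1, fun y =>
    List.nodup_iff_count_le_one.1 (h.2 e he).2.2 y⟩⟩

/-- Clustered unique games are easy. -/
theorem easy_UG {q : ℕ} (hq : 0 < q) {γ ε δ : ℝ} (h : 2 * ε + δ < γ) :
    UG.Easy (Clustered γ) q ε δ := by
  obtain ⟨P, hP, hsep⟩ := easy_LC 1 hq hq h
  exact ⟨P, hP, fun I hI => ⟨fun hy => (hsep I hI).1 ⟨isGame_LC hy.1, hy.2⟩,
    fun hn => (hsep I hI).2 ⟨isGame_LC hn.1, hn.2⟩⟩⟩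

/-! ### Sparse games are clustered -/

/-- A lower bound by the number of left vertices. -/
theorem clus_ge_left {J : Game} (hJ : J ≠ []) :
    ((edges J).image Prod.fst).card ≤ clus J * (edges J).card := by
  classical
  have hne := edges_nonempty hJ
  have hpos : (0 : ℝ) < (edges J).card := by exact_mod_cast card_pos.2 hne
  unfold clus
  rw [div_mul_cancel₀ _ hpos.ne']
  have h1 := sum_ends (E := edges J) fun _ => (1 : ℝ)
  rw [sum_const, nsmul_eq_mul, mul_one] at h1
  rw [← h1]
  refine sum_le_sum fun e he => ?_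
  gcongr
  have h2 : jac J e.2 e.2 = 1 := by
    unfold jac
    rw [inter_self, union_self]
    exact div_self (by exact_mod_cast (card_pos.2 ⟨e.1, mem_nb.2 he⟩).ne')
  rw [← h2]
  exact single_le_sum (f := fun v' => jac J e.2 v') (fun v' _ => by unfold jac; positivity)
    (mem_nR.2 he)

/-- A lower bound by the number of right vertices. -/
theorem clus_ge_right {J : Game} (hJ : J ≠ []) :
    (((edges J).image Prod.snd).card : ℝ) ^ 2 ≤ 2 * clus J * ((edges J).card : ℝ) ^ 2 := by
  classical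
  have hne := edges_nonempty hJ
  have hpos : (0 : ℝ) < (edges J).card := by exact_mod_cast card_pos.2 hne
  set E := edges J with hE
  -- the inverse degrees
  let f : ℕ → ℝ := fun v => 1 / ((nb E v).card : ℝ)
  have hf0 : ∀ v, 0 ≤ f v := fun v => by positivity
  have hf1 : ∀ u v, (u, v) ∈ E → (1 : ℝ) ≤ (nb E v).card := fun u v h => by
    exact_mod_cast card_pos.2 ⟨u, mem_nb.2 h⟩
  have hsum : ∑ e ∈ E, f e.2 = (E.image Prod.snd).card := by
    rw [← sum_fiberwise_of_maps_to (s := E) (t := E.image Prod.snd) (g := Prod.snd)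
      (fun e he => mem_image_of_mem _ he)]
    rw [sum_congr rfl fun v hv => show ∑ e ∈ E with e.2 = v, f e.2 = 1 from ?_, sum_const,
      nsmul_eq_mul, mul_one]
    obtain ⟨e, he, rfl⟩ := mem_image.1 hv
    have h1 := hf1 e.1 e.2 he
    rw [sum_congr rfl fun p hp => by rw [(mem_filter.1 hp).2], sum_const, ← card_nb, nsmul_eq_mul]
    exact mul_one_div_cancel (by linarith)
  -- the similarity
  have hjac : ∀ u v v', (u, v) ∈ E → (u, v') ∈ E → f v * f v' ≤ 2 * jac J v v' := by
    intro u v v' h1 h2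
    have a1 := hf1 u v h1
    have a2 := hf1 u v' h2
    have h3 : (1 : ℝ) ≤ (nb E v ∩ nb E v').card := by
      exact_mod_cast card_pos.2 ⟨u, mem_inter.2 ⟨mem_nb.2 h1, mem_nb.2 h2⟩⟩
    have h4 : ((nb E v ∪ nb E v').card : ℝ) ≤ (nb E v).card + (nb E v').card := by
      exact_mod_cast card_union_le _ _
    have h5 : (0 : ℝ) < (nb E v ∪ nb E v').card := by
      exact_mod_cast card_pos.2 ⟨u, mem_union_left _ (mem_nb.2 h1)⟩
    unfold jac
    rw [← hE]
    calc f v * f v' = 1 / (((nb E v).card : ℝ) * (nb E v').card) := by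
          simp only [f]
          rw [div_mul_div_comm, one_mul]
      _ ≤ 2 * (1 / ((nb E v ∪ nb E v').card : ℝ)) := by
          rw [mul_one_div, div_le_div_iff₀ (by positivity) h5]
          nlinarith
      _ ≤ _ := by gcongr
  -- Cauchy-Schwarz
  have h1 : ∑ e ∈ E, f e.2 = ∑ u ∈ E.image Prod.fst, ∑ v ∈ nR E u, f v := by
    rw [← sum_fiberwise_of_maps_to (s := E) (t := E.image Prod.fst) (g := Prod.fst)
      (fun e he => mem_image_of_mem _ he)]
    refine sum_congr rfl fun u _ => ?_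
    refine sum_nbij Prod.snd ?_ ?_ ?_ fun p _ => rfl
    · intro p hp
      obtain ⟨h3, rfl⟩ := mem_filter.1 hp
      exact mem_nR.2 h3
    · intro p hp p' hp' h
      rw [mem_coe, mem_filter] at hp hp'
      exact Prod.ext (hp.2.trans hp'.2.symm) h
    · intro v hv
      exact ⟨(u, v), mem_coe.2 (mem_filter.2 ⟨mem_nR.1 (mem_coe.1 hv), rfl⟩), rfl⟩
  have hdeg : ∑ u ∈ E.image Prod.fst, ((nR E u).card : ℝ) = E.card := by
    rw [card_eq_sum_card_image Prod.fst E]
    push_cast
    exact sum_congr rfl fun u _ => by rw [card_nR]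
  have h2 : (∑ u ∈ E.image Prod.fst, ∑ v ∈ nR E u, f v) ^ 2 ≤
      (∑ u ∈ E.image Prod.fst, ((nR E u).card : ℝ)) *
      ∑ u ∈ E.image Prod.fst, (∑ v ∈ nR E u, f v) ^ 2 / ((nR E u).card : ℝ) := by
    have h3 := sum_mul_sq_le_sq_mul_sq (E.image Prod.fst) (fun u => √((nR E u).card : ℝ))
      (fun u => (∑ v ∈ nR E u, f v) / √((nR E u).card : ℝ))
    have h4 : ∀ u ∈ E.image Prod.fst, √((nR E u).card : ℝ) *
        ((∑ v ∈ nR E u, f v) / √((nR E u).card : ℝ)) = ∑ v ∈ nR E u, f v := by
      intro u hu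
      obtain ⟨e, he, rfl⟩ := mem_image.1 hu
      have h5 : (0 : ℝ) < √((nR E e.1).card : ℝ) := Real.sqrt_pos.2 (by
        exact_mod_cast card_pos.2 ⟨e.2, mem_nR.2 he⟩)
      field_simp
    rw [sum_congr rfl h4] at h3
    refine h3.trans (le_of_eq ?_)
    congr 1
    · exact sum_congr rfl fun u _ => Real.sq_sqrt (by positivity)
    · exact sum_congr rfl fun u _ => by rw [div_pow, Real.sq_sqrt (by positivity)]
  have h3 : ∑ u ∈ E.image Prod.fst, (∑ v ∈ nR E u, f v) ^ 2 / ((nR E u).card : ℝ) ≤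
      2 * (clus J * E.card) := by
    unfold clus
    rw [← hE, div_mul_cancel₀ _ hpos.ne',
      ← sum_fiberwise_of_maps_to (s := E) (t := E.image Prod.fst) (g := Prod.fst)
      (fun e he => mem_image_of_mem _ he), mul_sum]
    refine sum_le_sum fun u _ => ?_
    have h4 : ∑ e ∈ E with e.1 = u, (∑ v' ∈ nR E e.1, jac J e.2 v') / ((nR E e.1).card : ℝ) =
        (∑ v ∈ nR E u, ∑ v' ∈ nR E u, jac J v v') / ((nR E u).card : ℝ) := by
      rw [sum_div]
      refine sum_nbij Prod.snd ?_ ?_ ?_ ?_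
      · intro p hp
        obtain ⟨h3, rfl⟩ := mem_filter.1 hp
        exact mem_nR.2 h3
      · intro p hp p' hp' h
        rw [mem_coe, mem_filter] at hp hp'
        exact Prod.ext (hp.2.trans hp'.2.symm) h
      · intro v hv
        exact ⟨(u, v), mem_coe.2 (mem_filter.2 ⟨mem_nR.1 (mem_coe.1 hv), rfl⟩), rfl⟩
      · intro p hp
        rw [(mem_filter.1 hp).2]
    rw [h4, ← mul_div_assoc, sq, sum_mul_sum, mul_sum]
    gcongr with v hv
    rw [mul_sum]
    exact sum_le_sum fun v' hv' => hjac u v v' (mem_nR.1 hv) (mem_nR.1 hv')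
  rw [← hsum, h1]
  calc _ ≤ _ := h2
    _ ≤ (E.card : ℝ) * (2 * (clus J * E.card)) := by
        rw [hdeg]
        gcongr
    _ = _ := by ring

end Pool.Agent.H697.CL
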