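import Pool.Agent.H697.CL.Easy

/-!
# Near-regular games without an induced forest are clustered
-/

namespace Pool.Agent.H697.CL

open Finset Pool.Agent.NPC Pool.Agent.H697.Forest
open Pool.Agent.H697.UG (Game Edge degL degR hasE Simple edges mem_edges card_edges cgraph
  AlmostRegular base base_pos small_ineq card_edges_filter)

/-- The number of closed walks of length four and the clustering coefficient. -/
theorem Q_le_clus {J : Game} (hJ : J ≠ []) {a b : ℝ}
    (ha : ∀ u, ((nR (edges J) u).card : ℝ) ≤ a) (hb : ∀ v, ((nb (edges J) v).card : ℝ) ≤ b) :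
    Q (edges J) ≤ clus J * (edges J).card * (2 * (a * b)) := by
  classical
  set E := edges J with hE
  have hapos : 0 ≤ a := (Nat.cast_nonneg _).trans (ha 0)
  have hbpos : 0 ≤ b := (Nat.cast_nonneg _).trans (hb 0)
  -- the closed walks
  have h1 : Q E = ∑ e ∈ E, ∑ f ∈ E.filter (fun f => f.2 = e.2),
      ((nR E e.1 ∩ nR E f.1).card : ℝ) := by
    unfold Q
    have h2 : ∀ u ∈ E.image Prod.fst, ∑ u' ∈ E.image Prod.fst, ∑ v ∈ E.image Prod.snd,
        ∑ v' ∈ E.image Prod.snd, chi E u v * chi E u' v * (chi E u v' * chi E u' v') =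
        ∑ v ∈ nR E u, ∑ f ∈ E.filter (fun f => f.2 = v), ((nR E u ∩ nR E f.1).card : ℝ) := by
      intro u _
      rw [sum_comm]
      have h3 : ∀ v ∈ E.image Prod.snd, ∑ u' ∈ E.image Prod.fst, ∑ v' ∈ E.image Prod.snd,
          chi E u v * chi E u' v * (chi E u v' * chi E u' v') =
          if v ∈ nR E u then ∑ f ∈ E.filter (fun f => f.2 = v),
            ((nR E u ∩ nR E f.1).card : ℝ) else 0 := by
        intro v _
        by_cases hv : v ∈ nR E u
        · rw [if_pos hv]
          have h4 : ∀ u' ∈ E.image Prod.fst, ∑ v' ∈ E.image Prod.snd,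
              chi E u v * chi E u' v * (chi E u v' * chi E u' v') =
              if (u', v) ∈ E then ((nR E u ∩ nR E u').card : ℝ) else 0 := by
            intro u' _
            have h5 : chi E u v = 1 := if_pos (mem_nR.1 hv)
            by_cases h6 : (u', v) ∈ E
            · have h7 : chi E u' v = 1 := if_pos h6
              rw [if_pos h6, h5, h7]
              have h8 : ∀ v' ∈ E.image Prod.snd, (1 : ℝ) * 1 * (chi E u v' * chi E u' v') =
                  if v' ∈ nR E u ∩ nR E u' then 1 else 0 := by
                intro v' _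
                unfold chi
                simp only [mem_inter, mem_nR]
                by_cases h9 : (u, v') ∈ E <;> by_cases h10 : (u', v') ∈ E <;> simp [h9, h10]
              rw [sum_congr rfl h8, ← sum_filter, sum_const, nsmul_eq_mul, mul_one]
              congr 2
              ext v'
              rw [mem_filter]
              refine ⟨fun h => h.2, fun h => ⟨?_, h⟩⟩
              exact mem_image.2 ⟨(u, v'), mem_nR.1 (mem_inter.1 h).1, rfl⟩
            · have h7 : chi E u' v = 0 := if_neg h6
              rw [if_neg h6, h7]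
              simp
          rw [sum_congr rfl h4, ← sum_filter]
          symm
          refine sum_nbij Prod.fst ?_ ?_ ?_ fun p _ => rfl
          · intro p hp
            obtain ⟨h5, rfl⟩ := mem_filter.1 hp
            exact mem_filter.2 ⟨mem_image_of_mem _ h5, h5⟩
          · intro p hp p' hp' h
            rw [mem_coe, mem_filter] at hp hp'
            exact Prod.ext h (hp.2.trans hp'.2.symm)
          · intro u' hu'
            obtain ⟨_, h5⟩ := mem_filter.1 (mem_coe.1 hu')
            exact ⟨(u', v), mem_coe.2 (mem_filter.2 ⟨h5, rfl⟩), rfl⟩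
        · rw [if_neg hv]
          have h5 : chi E u v = 0 := if_neg fun h => hv (mem_nR.2 h)
          rw [h5]
          simp
      rw [sum_congr rfl h3, ← sum_filter]
      refine sum_congr ?_ fun _ _ => rfl
      ext v
      rw [mem_filter]
      refine ⟨fun h => h.2, fun h => ⟨?_, h⟩⟩
      exact mem_image.2 ⟨(u, v), mem_nR.1 h, rfl⟩
    rw [sum_congr rfl h2]
    symm
    rw [← sum_fiberwise_of_maps_to (s := E) (t := E.image Prod.fst) (g := Prod.fst)
      (fun e he => mem_image_of_mem _ he)]
    refine sum_congr rfl fun u _ => ?_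
    refine sum_nbij Prod.snd ?_ ?_ ?_ ?_
    · intro p hp
      obtain ⟨h3, rfl⟩ := mem_filter.1 hp
      exact mem_nR.2 h3
    · intro p hp p' hp' h
      rw [mem_coe, mem_filter] at hp hp'
      exact Prod.ext (hp.2.trans hp'.2.symm) h
    · intro v hv
      exact ⟨(u, v), mem_coe.2 (mem_filter.2 ⟨mem_nR.1 (mem_coe.1 hv), rfl⟩), rfl⟩
    · intro p hp
      rw [(mem_filter.1 hp).2]
  rw [h1, clus_mul (edges_nonempty hJ), ← hE, sum_mul]
  refine sum_le_sum fun e he => ?_
  rw [sum_mul]
  refine sum_le_sum fun f hf => ?_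
  unfold om
  rw [sum_mul, card_eq_sum_ones]
  push_cast
  refine sum_le_sum fun v' _ => ?_
  have hd : (0 : ℝ) < (nR E e.1).card := by
    exact_mod_cast card_pos.2 ⟨e.2, mem_nR.2 he⟩
  have hU : (0 : ℝ) < (nb E e.2 ∪ nb E v').card := by
    exact_mod_cast card_pos.2 ⟨e.1, mem_union_left _ (mem_nb.2 he)⟩
  have h2 : ((nb E e.2 ∪ nb E v').card : ℝ) ≤ 2 * b := by
    have h3 : ((nb E e.2 ∪ nb E v').card : ℝ) ≤ (nb E e.2).card + (nb E v').card := by
      exact_mod_cast card_union_le _ _
    linarith [hb e.2, hb v']
  rw [one_div_mul_eq_div, le_div_iff₀ (by positivity), one_mul]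
  calc ((nR E e.1).card : ℝ) * (nb E e.2 ∪ nb E v').card ≤ a * (2 * b) := by
        gcongr
        exact ha e.1
    _ = _ := by ring

/-- Near-regular games without an induced forest `H` are clustered. -/
theorem clus_of_free {α : Type} [Fintype α] (H : SimpleGraph α) (hH : H.IsAcyclic) {K : ℕ}
    (hK : 0 < K) {I : Game} (hI : I ≠ []) (hS : Simple I)
    (hreg : AlmostRegular K I) (hfree : IsEmpty (H ↪g cgraph I)) :
    1 / (4 * (base (Fintype.card α) K : ℝ) ^ 2) ≤ clus I := by
  classical
  set B := base (Fintype.card α) K with hB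
  have hBpos : 0 < B := base_pos hK
  have hBr : (1 : ℝ) ≤ B := by exact_mod_cast hBpos
  have hIpos : 0 < I.length := List.length_pos_iff.2 hI
  -- the maximal degrees
  have hIne : I.toFinset.Nonempty := by
    obtain ⟨e, he⟩ := List.exists_mem_of_ne_nil I hI
    exact ⟨e, List.mem_toFinset.2 he⟩
  obtain ⟨ea, hea, hamax⟩ := Finset.exists_max_image I.toFinset (fun e => degL I e.1.1) hIne
  obtain ⟨eb, heb, hbmax⟩ := Finset.exists_max_image I.toFinset (fun e => degR I e.1.2) hIne
  rw [List.mem_toFinset] at hea heb
  set a := degL I ea.1.1 with ha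
  set b := degR I eb.1.2 with hb
  have ha' : ∀ u, degL I u ≤ a := by
    intro u
    by_cases h : ∃ e ∈ I, e.1.1 = u
    · obtain ⟨e, he, rfl⟩ := h
      exact hamax e (List.mem_toFinset.2 he)
    · have : degL I u = 0 := by
        unfold degL
        rw [List.length_eq_zero_iff, List.filter_eq_nil_iff]
        intro e he
        rw [decide_eq_true_eq]
        exact fun h2 => h ⟨e, he, h2⟩
      omega
  have hb' : ∀ u, degR I u ≤ b := by
    intro u
    by_cases h : ∃ e ∈ I, e.1.2 = u
    · obtain ⟨e, he, rfl⟩ := h
      exact hbmax e (List.mem_toFinset.2 he)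
    · have : degR I u = 0 := by
        unfold degR
        rw [List.length_eq_zero_iff, List.filter_eq_nil_iff]
        intro e he
        rw [decide_eq_true_eq]
        exact fun h2 => h ⟨e, he, h2⟩
      omega
  have hapos : 0 < a := by
    rw [ha]
    unfold degL
    exact List.length_pos_of_mem (List.mem_filter.2 ⟨hea, by simp⟩)
  have hbpos : 0 < b := by
    rw [hb]
    unfold degR
    exact List.length_pos_of_mem (List.mem_filter.2 ⟨heb, by simp⟩)
  set F := edges I with hF
  have hFcard : F.card = I.length := card_edges hS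
  have hFne : F.Nonempty := Finset.card_pos.1 (by omega)
  have hdu : ∀ u, (F.filter fun e => e.1 = u).card ≤ a := by
    intro u
    rw [← card_edges_filter hS (fun e => decide (e.1.1 = u)) (fun p => p.1 = u) (by simp)]
    exact ha' u
  have hdv : ∀ v, (F.filter fun e => e.2 = v).card ≤ b := by
    intro v
    rw [← card_edges_filter hS (fun e => decide (e.1.2 = v)) (fun p => p.2 = v) (by simp)]
    exact hb' v
  have hu : (a : ℝ) * (F.image Prod.fst).card ≤ (2 * K) * F.card := by
    have h1 := hreg.1 ea.1.1
    have h2 : (F.image Prod.fst).card ≤ (I.map fun e => e.1.1).toFinset.card := by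
      refine Finset.card_le_card ?_
      intro u hu
      obtain ⟨p, hp, rfl⟩ := Finset.mem_image.1 hu
      obtain ⟨e, he, rfl⟩ := mem_edges.1 hp
      exact List.mem_toFinset.2 (List.mem_map.2 ⟨e, he, rfl⟩)
    have h3 : a * (F.image Prod.fst).card ≤ 2 * K * F.card := by
      rw [hFcard]
      calc a * (F.image Prod.fst).card ≤ a * (I.map fun e => e.1.1).toFinset.card :=
            Nat.mul_le_mul_left _ h2
        _ ≤ K * I.length := h1
        _ ≤ 2 * K * I.length := Nat.mul_le_mul_right _ (by omega)
    exact_mod_cast h3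
  have hv : (b : ℝ) * (F.image Prod.snd).card ≤ (2 * K) * F.card := by
    have h1 := hreg.2 eb.1.2
    have h2 : (F.image Prod.snd).card ≤ (I.map fun e => e.1.2).toFinset.card := by
      refine Finset.card_le_card ?_
      intro u hu
      obtain ⟨p, hp, rfl⟩ := Finset.mem_image.1 hu
      obtain ⟨e, he, rfl⟩ := mem_edges.1 hp
      exact List.mem_toFinset.2 (List.mem_map.2 ⟨e, he, rfl⟩)
    have h3 : b * (F.image Prod.snd).card ≤ 2 * K * F.card := by
      rw [hFcard]
      calc b * (F.image Prod.snd).card ≤ b * (I.map fun e => e.1.2).toFinset.card :=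
            Nat.mul_le_mul_left _ h2
        _ ≤ K * I.length := h1
        _ ≤ 2 * K * I.length := Nat.mul_le_mul_right _ (by omega)
    exact_mod_cast h3
  have hKr : (0 : ℝ) < K := by exact_mod_cast hK
  have har : (0 : ℝ) < a := by exact_mod_cast hapos
  have hbr : (0 : ℝ) < b := by exact_mod_cast hbpos
  have hFr : (0 : ℝ) < F.card := by exact_mod_cast Finset.card_pos.2 hFne
  -- many closed walks
  have hQ : (1 / (B : ℝ) ^ 2) / 2 * (F.card * a * b) < Q F := by
    by_contra hcon
    push Not at hcon
    obtain ⟨f, hf1, hf2, hf3, hf4⟩ := exists_forest_bip H hH F hFne (K := 2 * K) har hbr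
      (by positivity) (fun u => by exact_mod_cast hdu u) (fun v => by exact_mod_cast hdv v)
      hu hv (κ := 1 / (B : ℝ) ^ 2) (by positivity) hcon (small_ineq _ K hK)
    refine hfree.false ⟨⟨f, hf1⟩, fun {x y} => ?_⟩
    rw [← hf2 x y]
    have key : ∀ u v, (u, v) ∈ I.map Prod.fst ↔ (u, v) ∈ F := by
      intro u v
      rw [hF, edges, List.mem_toFinset]
    change (cgraph I).Adj (f x) (f y) ↔ (bip F).Adj (f x) (f y)
    cases hx : f x with
    | inl u =>
      cases hy : f y with
      | inl v => exact Iff.rfl
      | inr v => exact key u v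
    | inr u =>
      cases hy : f y with
      | inl v => exact key v u
      | inr v => exact Iff.rfl
  have h1 := Q_le_clus hI (a := a) (b := b) (fun u => by rw [card_nR]; exact_mod_cast hdu u)
    (fun v => by rw [card_nb]; exact_mod_cast hdv v)
  rw [← hF] at h1
  have h2 : (1 / (4 * (B : ℝ) ^ 2)) * (F.card * (2 * (a * b))) ≤
      clus I * (F.card * (2 * (a * b))) := by
    calc (1 / (4 * (B : ℝ) ^ 2)) * (F.card * (2 * (a * b))) =
          (1 / (B : ℝ) ^ 2) / 2 * (F.card * a * b) := by
          field_simp
          ring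
      _ ≤ Q F := hQ.le
      _ ≤ _ := h1
      _ = _ := by ring
  exact le_of_mul_le_mul_right h2 (by positivity)

end Pool.Agent.H697.CL
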