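import Pool.Agent.H697.CL.Sparse

/-!
# Classes given by finitely many forbidden subgraphs
-/

namespace Pool.Agent.H697.CL

open Finset Pool.Agent.NPC Pool.Agent.H697.LF Pool.Agent.H697.Forest Pool.Agent.H697.Exp

/-- Graphs without a subgraph `H i`. -/
def NoSub {ι : Type} {V : ι → Type} (H : ∀ i, SimpleGraph (V i)) : GraphClass :=
  fun _ G => ∀ i, ¬ (H i).IsContained G

section
variable {W : Type} [Fintype W] [DecidableEq W] (G : SimpleGraph W) [DecidableRel G.Adj]

/-- The number of ordered pairs of adjacent vertices in `S`. -/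
def prs (S : Finset W) : ℕ := ((S ×ˢ S).filter fun p => G.Adj p.1 p.2).card

omit [Fintype W] in
theorem prs_erase (S : Finset W) (v : W) :
    prs G S ≤ prs G (S.erase v) + 2 * (S.filter fun b => G.Adj v b).card := by
  unfold prs
  have h1 : (S ×ˢ S).filter (fun p => G.Adj p.1 p.2) ⊆
      ((S.erase v ×ˢ S.erase v).filter fun p => G.Adj p.1 p.2) ∪
        (((S.filter fun b => G.Adj v b).image fun b => (v, b)) ∪
          ((S.filter fun b => G.Adj v b).image fun b => (b, v))) := by
    rintro ⟨a, b⟩ hab
    obtain ⟨h1, h2⟩ := mem_filter.1 hab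
    obtain ⟨ha, hb⟩ := mem_product.1 h1
    dsimp only at ha hb h2
    rw [mem_union, mem_union]
    by_cases h3 : a = v
    · right; left
      exact mem_image.2 ⟨b, mem_filter.2 ⟨hb, h3 ▸ h2⟩, by rw [h3]⟩
    · by_cases h4 : b = v
      · right; right
        exact mem_image.2 ⟨a, mem_filter.2 ⟨ha, h4 ▸ h2.symm⟩, by rw [h4]⟩
      · left
        exact mem_filter.2 ⟨mem_product.2 ⟨mem_erase.2 ⟨h3, ha⟩, mem_erase.2 ⟨h4, hb⟩⟩, h2⟩
  have h2 := (card_le_card h1).trans ((card_union_le _ _).trans
    (Nat.add_le_add_left (card_union_le _ _) _))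
  have h3 := card_image_le (s := S.filter fun b => G.Adj v b) (f := fun b => (v, b))
  have h4 := card_image_le (s := S.filter fun b => G.Adj v b) (f := fun b => (b, v))
  omega

/-- A graph with many edges contains a nonempty set of vertices with many neighbours in the set. -/
theorem exists_core {h : ℕ} (hG : 2 * h * Fintype.card W < prs G univ) :
    ∃ S : Finset W, S.Nonempty ∧ ∀ v ∈ S, h < (S.filter fun b => G.Adj v b).card := by
  obtain ⟨S, hS, hmin⟩ := exists_min_image
    ((univ : Finset (Finset W)).filter fun S => 2 * h * S.card < prs G S) card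
    ⟨univ, mem_filter.2 ⟨mem_univ _, by rw [card_univ]; exact hG⟩⟩
  rw [mem_filter] at hS
  refine ⟨S, ?_, fun v hv => ?_⟩
  · rw [nonempty_iff_ne_empty]
    rintro rfl
    have h1 := hS.2
    unfold prs at h1
    simp at h1
  · by_contra hcon
    push Not at hcon
    have h1 := prs_erase G S v
    have h2 : ¬ 2 * h * (S.erase v).card < prs G (S.erase v) := by
      intro h3
      have h4 := hmin _ (mem_filter.2 ⟨mem_univ _, h3⟩)
      rw [card_erase_of_mem hv] at h4
      have := card_pos.2 ⟨v, hv⟩
      omega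
    rw [card_erase_of_mem hv] at h2
    have h5 := card_pos.2 ⟨v, hv⟩
    have h6 : 2 * h * S.card = 2 * h * (S.card - 1) + 2 * h := by
      obtain ⟨c, hc⟩ : ∃ c, S.card = c + 1 := ⟨S.card - 1, by omega⟩
      rw [hc, Nat.add_sub_cancel]
      ring
    have h7 := hS.2
    omega

/-- Greedy embedding of a forest. -/
theorem exists_copy {α : Type} [Fintype α] (H : SimpleGraph α) (hH : H.IsAcyclic)
    (hG : 2 * Fintype.card α * Fintype.card W < prs G univ) : H.IsContained G := by
  obtain ⟨S, ⟨v0, hv0⟩, hS⟩ := exists_core G hG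
  obtain ⟨n, hn⟩ : ∃ n, Fintype.card α = n := ⟨_, rfl⟩
  obtain ⟨e, he⟩ := exists_order n α H hH hn
  rw [hn] at hS
  have hcardS : n < S.card := lt_of_lt_of_le (hS v0 hv0) (card_le_card (filter_subset _ _))
  have key : ∀ k ≤ n, ∃ f : ℕ → W, (∀ i < k, f i ∈ S) ∧ (∀ i < k, ∀ j < k, f i = f j → i = j) ∧
      ∀ (i j : Fin n), i < j → (j : ℕ) < k → H.Adj (e i) (e j) → G.Adj (f i) (f j) := by
    intro k
    induction k with
    | zero => exact fun _ => ⟨fun _ => v0, fun _ h => absurd h (by omega),
        fun _ h => absurd h (by omega), fun _ _ _ h => absurd h (by omega)⟩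
    | succ k ih =>
      intro hk
      obtain ⟨f, hf1, hf2, hf3⟩ := ih (by omega)
      have hkn : k < n := by omega
      -- the new vertex
      have hnew : ∃ w ∈ S, (∀ i < k, f i ≠ w) ∧ ∀ i : Fin n, (i : ℕ) < k →
          H.Adj (e i) (e ⟨k, hkn⟩) → G.Adj (f i) w := by
        have hcard : ((range k).image f).card ≤ k := card_image_le.trans (by rw [card_range])
        by_cases hex : ∃ i : Fin n, (i : ℕ) < k ∧ H.Adj (e i) (e ⟨k, hkn⟩)
        · obtain ⟨i0, hi0, hadj⟩ := hex
          have h1 := hS _ (hf1 i0 hi0)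
          obtain ⟨w, hw⟩ : ((S.filter fun b => G.Adj (f i0) b) \ (range k).image f).Nonempty := by
            rw [← card_pos]
            have := le_card_sdiff ((range k).image f) (S.filter fun b => G.Adj (f i0) b)
            omega
          obtain ⟨hw1, hw2⟩ := mem_sdiff.1 hw
          obtain ⟨hw3, hw4⟩ := mem_filter.1 hw1
          refine ⟨w, hw3, fun i hi h => hw2 (mem_image.2 ⟨i, mem_range.2 hi, h⟩), fun i hi h => ?_⟩
          have h5 : i = i0 := he i i0 ⟨k, hkn⟩ hi hi0 h hadj
          rw [h5]
          exact hw4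
        · obtain ⟨w, hw⟩ : (S \ (range k).image f).Nonempty := by
            rw [← card_pos]
            have := le_card_sdiff ((range k).image f) S
            omega
          obtain ⟨hw1, hw2⟩ := mem_sdiff.1 hw
          exact ⟨w, hw1, fun i hi h => hw2 (mem_image.2 ⟨i, mem_range.2 hi, h⟩),
            fun i hi h => absurd ⟨i, hi, h⟩ hex⟩
      obtain ⟨w, hw1, hw2, hw3⟩ := hnew
      have hlt : ∀ i < k, (if i = k then w else f i) = f i := fun i hi => if_neg (by omega)
      refine ⟨fun i => if i = k then w else f i, fun i hi => ?_, fun i hi j hj h => ?_,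
        fun i j hij hj hadj => ?_⟩
      · beta_reduce
        split_ifs with h
        · exact hw1
        · exact hf1 i (by omega)
      · beta_reduce at h
        split_ifs at h with h1 h2 h2
        · omega
        · exact absurd h.symm (hw2 j (by omega))
        · exact absurd h (hw2 i (by omega))
        · exact hf2 i (by omega) j (by omega) h
      · beta_reduce
        have hij' : (i : ℕ) < j := hij
        rw [if_neg (by omega)]
        split_ifs with h1
        · have h2 : j = ⟨k, hkn⟩ := Fin.ext h1
          rw [h2] at hadj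
          exact hw3 i (by omega) hadj
        · exact hf3 i j hij (by omega) hadj
  obtain ⟨f, _, hf2, hf3⟩ := key n le_rfl
  refine ⟨⟨⟨fun a => f (e.symm a), fun {a b} hab => ?_⟩, fun a b hab => ?_⟩⟩
  · rcases lt_trichotomy (e.symm a) (e.symm b) with h | h | h
    · exact hf3 _ _ h (e.symm b).2 (by simpa using hab)
    · exact absurd (e.symm.injective h) hab.ne
    · exact (hf3 _ _ h (e.symm a).2 (by simpa using hab.symm)).symm
  · exact e.symm.injective (Fin.ext (hf2 _ (e.symm a).2 _ (e.symm b).2 hab))

end

theorem prs_eq {W : Type} [Fintype W] [DecidableEq W] (G : SimpleGraph W) [DecidableRel G.Adj] :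
    prs G univ = 2 * G.edgeSet.ncard := by
  rw [Set.ncard_eq_toFinset_card', ← SimpleGraph.edgeFinset,
    ← G.sum_degrees_eq_twice_card_edges]
  unfold prs
  rw [card_filter, sum_product]
  refine sum_congr rfl fun a _ => ?_
  rw [← card_filter, ← SimpleGraph.card_neighborFinset_eq_degree]
  congr 1
  ext b
  simp

/-- Excluding a forest makes a graph sparse. -/
theorem sparse_of_forest {ι : Type} {V : ι → Type} (H : ∀ i, SimpleGraph (V i)) {i : ι}
    [Finite (V i)] (hi : (H i).IsAcyclic) : Sparse (NoSub H) (Nat.card (V i)) := by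
  classical
  intro W _ G _ hG
  have := Fintype.ofFinite (V i)
  have := Fintype.ofFinite W
  by_contra hcon
  push Not at hcon
  refine hG i (exists_copy G (H i) hi ?_)
  rw [prs_eq, mul_assoc, ← Nat.card_eq_fintype_card, ← Nat.card_eq_fintype_card]
  omega

/-- There are graphs of large girth with many edges. -/
theorem exists_dense_girth (D g : ℕ) : ∃ (W : Type) (_ : Finite W) (G : SimpleGraph W),
    (∀ a, ∃ b, G.Adj a b) ∧ D * Nat.card W < G.edgeSet.ncard ∧ GirthGT G g := by
  classical
  have hne : ∀ a : Fin (2 * D + 2), ∃ b, (⊤ : SimpleGraph (Fin (2 * D + 2))).Adj a b := by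
    intro a
    obtain ⟨b, hb⟩ := exists_ne a
    exact ⟨b, hb.symm⟩
  obtain ⟨W, hW, G, n, hn, h1, h2⟩ :=
    exists_lift_girth (⊤ : SimpleGraph (Fin (2 * D + 2))) g
  refine ⟨W, hW, G, h1.exists_adj hne, ?_, h2⟩
  rw [h1.card_vertices, h1.card_edges]
  have h3 : D * Nat.card (Fin (2 * D + 2)) <
      (⊤ : SimpleGraph (Fin (2 * D + 2))).edgeSet.ncard := by
    have h4 := prs_eq (⊤ : SimpleGraph (Fin (2 * D + 2)))
    have h5 : prs (⊤ : SimpleGraph (Fin (2 * D + 2))) univ = (2 * D + 2) * (2 * D + 1) := by
      unfold prs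
      rw [card_filter, sum_product]
      have h6 : ∀ a : Fin (2 * D + 2), ∑ b : Fin (2 * D + 2),
          (if (⊤ : SimpleGraph (Fin (2 * D + 2))).Adj a b then 1 else 0) = 2 * D + 1 := by
        intro a
        rw [← card_filter]
        have h7 : (univ.filter fun b => (⊤ : SimpleGraph (Fin (2 * D + 2))).Adj a b) =
            univ.erase a := by
          ext b
          simp only [mem_filter, mem_univ, true_and, SimpleGraph.top_adj, mem_erase, and_true]
          exact ne_comm
        rw [h7, card_erase_of_mem (mem_univ _), card_univ, Fintype.card_fin]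
        omega
      rw [sum_congr rfl fun a _ => h6 a, sum_const, card_univ, Fintype.card_fin, smul_eq_mul]
    rw [Nat.card_eq_fintype_card, Fintype.card_fin]
    nlinarith
  calc D * (n * Nat.card (Fin (2 * D + 2))) = n * (D * Nat.card (Fin (2 * D + 2))) := by ring
    _ < _ := Nat.mul_lt_mul_of_pos_left h3 hn

/-- If no forest is excluded then the class contains all graphs of large girth. -/
theorem liftClosed_of_cycles {ι : Type} [Finite ι] {V : ι → Type} (H : ∀ i, SimpleGraph (V i))
    (hH : ∀ i, ¬ (H i).IsAcyclic) : ∃ g, LiftClosed g (NoSub H) ∧ ∀ D, ¬ Sparse (NoSub H) D := by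
  classical
  have hcyc : ∀ i, ∃ (a : V i) (p : (H i).Walk a a), p.IsCycle := by
    intro i
    have := hH i
    unfold SimpleGraph.IsAcyclic at this
    push Not at this
    exact this
  choose a p hp using hcyc
  have := Fintype.ofFinite ι
  set g : ℕ := ∑ i, (p i).length with hg
  have hfree : ∀ (W : Type) (G : SimpleGraph W), GirthGT G g → NoSub H W G := by
    rintro W G hG i ⟨φ⟩
    have h1 := hG _ ((p i).map φ.toHom) ((hp i).map φ.injective)
    rw [SimpleGraph.Walk.length_map] at h1
    have h2 : (p i).length ≤ g :=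
      single_le_sum (f := fun i => (p i).length) (fun _ _ => Nat.zero_le _) (mem_univ i)
    omega
  refine ⟨g, fun V W _ _ G K n _ _ _ hK => hfree W K hK, fun D hD => ?_⟩
  obtain ⟨W, hW, G, h1, h2, h3⟩ := exists_dense_girth D g
  have := hD W G h1 (hfree W G h3)
  omega

end Pool.Agent.H697.CL
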