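import Pool.Agent.H697.CL.Tup
import Pool.Agent.H697.CL.Mono

/-!
# Clustered projection games: consequences
-/

namespace Pool.Agent.H697.CL

open Pool.Agent.NPC Pool.Agent.H697.LC Pool.Agent.H697.LF
open Pool.Agent.H697.UG (Game)

/-- The reduction to the games on a class of graphs. -/
theorem LC_lift_reduction (d : ℕ) {q₁ q₂ : ℕ} (hq₁ : 0 < q₁) (hq₂ : 0 < q₂) {δ δ' : ℝ}
    (h : δ < δ') : ∃ D : ℕ, ∀ (g : ℕ) (C : GraphClass), LiftClosed g C → ¬ Sparse C D →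
      (Hard (fun _ => True) (Yes d q₁ q₂ 0) (No d q₁ q₂ δ) →
        Hard (On C) (Yes d q₁ q₂ 0) (No d q₁ q₂ δ')) ∧
      (Easy (On C) (Yes d q₁ q₂ 0) (No d q₁ q₂ δ') →
        Easy (fun _ => True) (Yes d q₁ q₂ 0) (No d q₁ q₂ δ)) := by
  obtain ⟨D, hD⟩ := exists_reduction_LC_lift d hq₁ hq₂ (le_refl (0 : ℝ)) one_pos h
  refine ⟨D, fun g C hC hs => ?_⟩
  unfold Sparse at hs
  push Not at hs
  obtain ⟨V, hV, G, hG, hCG, hcard⟩ := hs
  obtain ⟨F, hF, hL, _, hY, _, hN⟩ := hD V G g hG hcard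
  have hCl : ∀ I, IsGame d q₁ q₂ I → True → On C (F I) := by
    intro I hI _
    obtain ⟨hS, hg, n, hn, hl⟩ := hL I hI
    exact ⟨hS, hC V _ G _ n hn hCG hl hg⟩
  exact ⟨fun hh => LC_hard_of_reduction (IsGame d q₁ q₂) hh hF (fun _ h => h.1) (fun _ h => h.1)
    hCl hY hN, fun hh => LC_easy_of_reduction (IsGame d q₁ q₂) hh hF (fun _ h => h.1)
    (fun _ h => h.1) hCl hY hN⟩

/-- Classes of clustered games are easy. -/
theorem easy_of_clustered_LC {Cl : Game → Prop} {γ : ℝ}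
    (hCl : ∀ I, I ≠ [] → Cl I → Clustered γ I) (d : ℕ) {q₁ q₂ : ℕ} (hq₁ : 0 < q₁) (hq₂ : 0 < q₂)
    {ε δ : ℝ} (h : 2 * ε + δ < γ) : Easy Cl (Yes d q₁ q₂ ε) (No d q₁ q₂ δ) := by
  obtain ⟨P, hP, hsep⟩ := easy_LC d hq₁ hq₂ h
  exact ⟨P, hP, fun I hI => ⟨fun hy => (hsep I (hCl I hy.1.1 hI)).1 hy,
    fun hn => (hsep I (hCl I hn.1.1 hI)).2 hn⟩⟩

/-- Games without forests. -/
theorem clustered_of_noSub {ι : Type} {V : ι → Type} [∀ i, Finite (V i)]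
    (H : ∀ i, SimpleGraph (V i)) {i : ι} (hi : (H i).IsAcyclic) {I : Game} (hI : I ≠ [])
    (hJ : On (NoSub H) I) : Clustered (1 / (8 * Nat.card (V i) ^ 2)) I := by
  rcases Nat.eq_zero_or_pos (Nat.card (V i)) with h0 | hpos
  · exfalso
    have h1 : IsEmpty (V i) := by
      rcases Nat.card_eq_zero.1 h0 with h | h
      · exact h
      · exact absurd (inferInstance : Finite (V i)) (not_finite_iff_infinite.2 h)
    exact hJ.2 i ⟨⟨⟨fun a => isEmptyElim a, fun {a} => isEmptyElim a⟩,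
      fun a => isEmptyElim a⟩⟩
  · exact clustered_of_sparse hpos (sparse_of_forest H hi) hI hJ

end Pool.Agent.H697.CL
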