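import Pool.Agent.H697.CL.Sound
import Pool.Agent.H697.CL.Alg
import Pool.Agent.H697.LC.Defs

/-!
# The algorithm and the sum of the weights
-/

namespace Pool.Agent.H697.CL

open Finset Pool.Agent.NPC
open Pool.Agent.H697.UG (Game Edge degL degR hasE Simple edges mem_edges card_edges_filter
  card_edges hasE_iff unique_edge)

/-! ### Lists and sets -/

theorem exists_ed {J : Game} (hS : Simple J) : ∃ ed : ℕ × ℕ → Edge, (∀ e ∈ J, ed e.1 = e) ∧
    ∀ p ∈ edges J, ed p ∈ J ∧ (ed p).1 = p := by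
  classical
  have h1 : ∀ p : ℕ × ℕ, ∃ e : Edge, p ∈ edges J → e ∈ J ∧ e.1 = p := by
    intro p
    by_cases hp : p ∈ edges J
    · obtain ⟨e, he, h⟩ := mem_edges.1 hp
      exact ⟨e, fun _ => ⟨he, h⟩⟩
    · exact ⟨((0, 0), []), fun h => absurd h hp⟩
  choose ed hed using h1
  refine ⟨ed, fun e he => ?_, hed⟩
  obtain ⟨h2, h3⟩ := hed e.1 (mem_edges.2 ⟨e, he, rfl⟩)
  exact unique_edge hS h2 he h3

theorem sum_list {J : Game} (hS : Simple J) {ed : ℕ × ℕ → Edge} (hed : ∀ e ∈ J, ed e.1 = e)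
    (f : Edge → ℕ) : (J.map f).sum = ∑ p ∈ edges J, f (ed p) := by
  classical
  have hJ : J.Nodup := List.Nodup.of_map _ hS
  have h1 : edges J = J.toFinset.image Prod.fst := by
    ext p
    rw [mem_edges, mem_image]
    simp only [List.mem_toFinset]
  rw [h1, sum_image, ← List.sum_toFinset f hJ]
  · refine sum_congr rfl fun e he => ?_
    rw [hed e (List.mem_toFinset.1 he)]
  · intro e he e' he' h
    rw [mem_coe, List.mem_toFinset] at he he'
    exact unique_edge hS he he' h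

theorem sum_list_filter {J : Game} (hS : Simple J) {ed : ℕ × ℕ → Edge} (hed : ∀ e ∈ J, ed e.1 = e)
    (P : Edge → Bool) (f : Edge → ℕ) :
    ((J.filter P).map f).sum = ∑ p ∈ edges J, if P (ed p) then f (ed p) else 0 := by
  rw [← sum_list hS hed fun e => if P e then f e else 0]
  clear hS hed
  induction J with
  | nil => rfl
  | cons e J ih =>
    rw [List.map_cons, List.sum_cons, ← ih]
    cases h : P e <;> simp [h]

theorem degL_eq {J : Game} (hS : Simple J) (u : ℕ) : degL J u = (nR (edges J) u).card := by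
  rw [card_nR]
  exact card_edges_filter hS _ _ (by simp)

theorem hasE_mem {J : Game} {u v : ℕ} : hasE J u v = true ↔ (u, v) ∈ edges J := by
  rw [hasE_iff, mem_edges]

theorem un_eq {J : Game} (hS : Simple J) (v v' : ℕ) :
    un J v v' = (nb (edges J) v ∪ nb (edges J) v').card := by
  classical
  unfold un
  rw [card_edges_filter hS _ (fun p => p.2 = v ∨ (p.2 = v' ∧ (p.1, v) ∉ edges J)) (by
    intro e _
    simp only [Bool.or_eq_true, decide_eq_true_eq, Bool.and_eq_true, Bool.not_eq_true',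
      ← Bool.not_eq_true, hasE_mem])]
  rw [← card_image_of_injOn (f := Prod.fst)
    (s := (edges J).filter fun p => p.2 = v ∨ (p.2 = v' ∧ (p.1, v) ∉ edges J))]
  · congr 1
    ext x
    rw [mem_union, mem_nb, mem_nb, mem_image]
    constructor
    · rintro ⟨p, hp, rfl⟩
      obtain ⟨h1, h2⟩ := mem_filter.1 hp
      rcases h2 with h2 | ⟨h2, _⟩
      · left; rw [← h2]; exact h1
      · right; rw [← h2]; exact h1
    · intro h
      by_cases h1 : (x, v) ∈ edges J
      · exact ⟨(x, v), mem_filter.2 ⟨h1, Or.inl rfl⟩, rfl⟩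
      · exact ⟨(x, v'), mem_filter.2 ⟨h.resolve_left h1, Or.inr ⟨rfl, h1⟩⟩, rfl⟩
  · intro p hp p' hp' h
    rw [mem_coe, mem_filter] at hp hp'
    obtain ⟨h1, h2⟩ := hp
    obtain ⟨h3, h4⟩ := hp'
    apply Prod.ext h
    rcases h2 with h2 | ⟨h2, h5⟩ <;> rcases h4 with h4 | ⟨h4, h6⟩
    · rw [h2, h4]
    · exfalso
      apply h6
      rw [← h, ← h2]
      exact h1
    · exfalso
      apply h5
      rw [h, ← h4]
      exact h3
    · rw [h2, h4]

/-! ### Best values -/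

theorem le_best (f : ℕ → ℕ) {n q : ℕ} (h : n < q) : f n ≤ best f q := by
  induction q with
  | zero => omega
  | succ q ih =>
    show f n ≤ max (best f q) (f q)
    rcases Nat.lt_succ_iff_lt_or_eq.1 h with h | rfl
    · exact (ih h).trans (le_max_left _ _)
    · exact le_max_right _ _

theorem exists_best (f : ℕ → ℕ) {q : ℕ} (hq : 0 < q) : ∃ n : Fin q, best f q = f n := by
  induction q with
  | zero => omega
  | succ q ih =>
    rcases Nat.eq_zero_or_pos q with rfl | h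
    · exact ⟨0, Nat.max_eq_right (Nat.zero_le _)⟩
    · obtain ⟨n, hn⟩ := ih h
      rcases le_total (best f q) (f q) with h1 | h1
      · exact ⟨Fin.last q, Nat.max_eq_right h1⟩
      · exact ⟨n.castSucc, (Nat.max_eq_left h1).trans hn⟩

/-! ### The sum over the ends of the edges -/

theorem sum_ends {E : Finset (ℕ × ℕ)} (h : ℕ → ℝ) :
    ∑ p ∈ E, h p.1 / ((nR E p.1).card : ℝ) = ∑ z ∈ E.image Prod.fst, h z := by
  rw [← sum_fiberwise_of_maps_to (s := E) (t := E.image Prod.fst) (g := Prod.fst)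
    (fun e he => mem_image_of_mem _ he)]
  refine sum_congr rfl fun z hz => ?_
  have hpos : (0 : ℝ) < (nR E z).card := by
    obtain ⟨e, he, rfl⟩ := mem_image.1 hz
    exact_mod_cast card_pos.2 ⟨e.2, mem_nR.2 he⟩
  rw [sum_congr rfl fun p hp => by rw [(mem_filter.1 hp).2], sum_const, ← card_nR, nsmul_eq_mul]
  field_simp

theorem sum_ends_nb {E : Finset (ℕ × ℕ)} (v : ℕ) (h : ℕ → ℝ) :
    ∑ p ∈ E, (if (p.1, v) ∈ E then h p.1 else 0) / ((nR E p.1).card : ℝ) =
      ∑ f ∈ E.filter (fun f => f.2 = v), h f.1 := by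
  rw [sum_ends (E := E) (fun z => if (z, v) ∈ E then h z else 0), ← sum_filter]
  have h1 : (E.filter fun f => f.2 = v).image Prod.fst =
      (E.image Prod.fst).filter fun z => (z, v) ∈ E := by
    ext z
    rw [mem_filter, mem_image, mem_image]
    constructor
    · rintro ⟨f, hf, rfl⟩
      obtain ⟨hf1, rfl⟩ := mem_filter.1 hf
      exact ⟨⟨f, hf1, rfl⟩, hf1⟩
    · rintro ⟨_, hz⟩
      exact ⟨(z, v), mem_filter.2 ⟨hz, rfl⟩, rfl⟩
  rw [← h1, sum_image]
  intro f hf f' hf' h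
  rw [mem_coe, mem_filter] at hf hf'
  exact Prod.ext h (hf.2.trans hf'.2.symm)

/-! ### Weights -/

section
variable {J : Game} (hS : Simple J)

include hS in
theorem pw_le (Q z u v : ℕ) : (pw Q J z u v : ℝ) ≤
    Q * (om (edges J) (u, v) (z, v) /
      (((nR (edges J) z).card : ℝ) * ((nR (edges J) u).card : ℝ))) ∧
    Q * (om (edges J) (u, v) (z, v) /
      (((nR (edges J) z).card : ℝ) * ((nR (edges J) u).card : ℝ))) ≤
      pw Q J z u v + J.length := by
  classical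
  obtain ⟨ed, hed, hed'⟩ := exists_ed hS
  set E := edges J with hE
  have h1 : pw Q J z u v = ∑ v' ∈ nR E u ∩ nR E z, wt Q J z u v v' := by
    unfold pw
    rw [sum_list_filter hS hed]
    have h2 : ∀ p ∈ E, (if (decide ((ed p).1.1 = u) && hasE J z (ed p).1.2) = true then
        wt Q J z u v (ed p).1.2 else 0) = if p.1 = u ∧ (z, p.2) ∈ E then
        wt Q J z u v p.2 else 0 := by
      intro p hp
      rw [(hed' p hp).2]
      simp only [Bool.and_eq_true, decide_eq_true_eq, hasE_mem, ← hE]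
    rw [sum_congr rfl h2, ← sum_filter]
    refine sum_nbij Prod.snd ?_ ?_ ?_ fun p _ => rfl
    · intro p hp
      obtain ⟨h3, rfl, h4⟩ := mem_filter.1 hp
      exact mem_inter.2 ⟨mem_nR.2 h3, mem_nR.2 h4⟩
    · intro p hp p' hp' h
      rw [mem_coe, mem_filter] at hp hp'
      exact Prod.ext (hp.2.1.trans hp'.2.1.symm) h
    · intro v' hv'
      obtain ⟨h3, h4⟩ := mem_inter.1 (mem_coe.1 hv')
      exact ⟨(u, v'), mem_coe.2 (mem_filter.2 ⟨mem_nR.1 h3, rfl, mem_nR.1 h4⟩), rfl⟩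
  have h2 : (Q : ℝ) * (om E (u, v) (z, v) / (((nR E z).card : ℝ) * ((nR E u).card : ℝ))) =
      ∑ v' ∈ nR E u ∩ nR E z, (Q : ℝ) / (((nR E z).card : ℝ) * (((nR E u).card : ℝ) *
        (((nR E u).card : ℝ) * ((nb E v ∪ nb E v').card : ℝ)))) := by
    unfold om
    rw [sum_div, mul_sum]
    refine sum_congr rfl fun v' _ => ?_
    rw [div_div, mul_one_div]
    congr 1
    ring
  have h3 : ∀ v', (wt Q J z u v v' : ℝ) ≤ (Q : ℝ) / (((nR E z).card : ℝ) *
      (((nR E u).card : ℝ) * (((nR E u).card : ℝ) * ((nb E v ∪ nb E v').card : ℝ)))) ∧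
      (Q : ℝ) / (((nR E z).card : ℝ) * (((nR E u).card : ℝ) * (((nR E u).card : ℝ) *
        ((nb E v ∪ nb E v').card : ℝ)))) ≤ wt Q J z u v v' + 1 := by
    intro v'
    have h4 : ((degL J z * (degL J u * (degL J u * un J v v')) : ℕ) : ℝ) =
        ((nR E z).card : ℝ) * (((nR E u).card : ℝ) * (((nR E u).card : ℝ) *
          ((nb E v ∪ nb E v').card : ℝ))) := by
      rw [degL_eq hS, degL_eq hS, un_eq hS]
      push_cast
      ring
    rw [← h4]
    unfold wt
    exact ⟨Nat.cast_div_le, (Nat.lt_floor_add_one _).le.trans (by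
      rw [Nat.floor_div_natCast, Nat.floor_natCast])⟩
  rw [h2, h1]
  push_cast
  refine ⟨sum_le_sum fun v' _ => (h3 v').1, ?_⟩
  calc _ ≤ ∑ v' ∈ nR E u ∩ nR E z, ((wt Q J z u v v' : ℝ) + 1) := sum_le_sum fun v' _ => (h3 v').2
    _ = ∑ v' ∈ nR E u ∩ nR E z, (wt Q J z u v v' : ℝ) + (nR E u ∩ nR E z).card := by
        rw [sum_add_distrib, sum_const, nsmul_eq_mul, mul_one]
    _ ≤ _ := by
        have h5 : (nR E u ∩ nR E z).card ≤ J.length := by
          refine (card_le_card inter_subset_left).trans ?_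
          rw [card_nR, ← card_edges hS]
          exact card_filter_le _ _
        have h6 : ((nR E u ∩ nR E z).card : ℝ) ≤ J.length := by exact_mod_cast h5
        linarith

end

/-! ### The maps of the edges -/

open Pool.Agent.H697.LC (IsGame numSat Sat)

theorem exists_pi {J : Game} (hS : Simple J) {d q₁ q₂ : ℕ} (hq₂ : 0 < q₂)
    (hG : IsGame d q₁ q₂ J) :
    ∃ π : ℕ × ℕ → Fin q₁ → Fin q₂, ∀ e ∈ J, ∀ x : Fin q₁, e.2[(x : ℕ)]? = some (π e.1 x : ℕ) := by
  obtain ⟨ed, hed, hed'⟩ := exists_ed hS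
  have h1 : ∀ (p : ℕ × ℕ) (x : Fin q₁), ∃ y : Fin q₂, p ∈ edges J →
      (ed p).2[(x : ℕ)]? = some (y : ℕ) := by
    intro p x
    by_cases hp : p ∈ edges J
    · obtain ⟨h1, h2, _⟩ := hG.2 _ (hed' p hp).1
      have hx : (x : ℕ) < (ed p).2.length := by rw [h1]; exact x.2
      exact ⟨⟨(ed p).2[(x : ℕ)], h2 _ (List.getElem_mem hx)⟩, fun _ =>
        List.getElem?_eq_getElem hx⟩
    · exact ⟨⟨0, hq₂⟩, fun h => absurd h hp⟩
  choose π hπ using h1
  refine ⟨π, fun e he x => ?_⟩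
  have := hπ e.1 x (mem_edges.2 ⟨e, he, rfl⟩)
  rwa [hed e he] at this

section
variable {J : Game} (hS : Simple J) {q₁ q₂ : ℕ} {π : ℕ × ℕ → Fin q₁ → Fin q₂}
  (hπ : ∀ e ∈ J, ∀ x : Fin q₁, e.2[(x : ℕ)]? = some (π e.1 x : ℕ))

include hπ in
theorem agr_iff (z : ℕ) (a x : Fin q₁) {e : Edge} (he : e ∈ J) :
    agr J z a x e = true ↔ (z, e.1.2) ∈ edges J ∧ π e.1 x = π (z, e.1.2) a := by
  unfold agr
  simp only [List.any_eq_true, Bool.and_eq_true, decide_eq_true_eq]
  constructor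
  · rintro ⟨f, hf, h1, h2, _⟩
    refine ⟨mem_edges.2 ⟨f, hf, h1⟩, ?_⟩
    rw [hπ e he x, hπ f hf a, h1, Option.some.injEq] at h2
    exact Fin.ext h2
  · rintro ⟨h1, h2⟩
    obtain ⟨f, hf, h3⟩ := mem_edges.1 h1
    refine ⟨f, hf, h3, ?_, ?_⟩
    · rw [hπ e he x, hπ f hf a, h3, h2]
    · rw [hπ f hf a]; rfl

include hS hπ in
theorem numE_eq (L : ℕ → Fin q₁) (M : ℕ → Fin q₂) : numE π (edges J) L M = numSat J L M := by
  unfold numE numSat
  symm
  refine card_edges_filter hS _ _ fun e he => ?_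
  rw [decide_eq_true_eq]
  unfold Sat
  rw [hπ e he, Option.some.injEq]
  exact ⟨fun h => Fin.ext h, fun h => congrArg Fin.val h⟩

include hS hπ in
theorem inn_eq (Q z : ℕ) (a x : Fin q₁) (u : ℕ) : inn Q J z a u x =
    ∑ p ∈ edges J, if p.1 = u ∧ (z, p.2) ∈ edges J ∧ π p x = π (z, p.2) a then
      pw Q J z u p.2 else 0 := by
  classical
  obtain ⟨ed, hed, hed'⟩ := exists_ed hS
  unfold inn
  rw [sum_list_filter hS hed]
  refine sum_congr rfl fun p hp => ?_
  obtain ⟨h1, h2⟩ := hed' p hp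
  have h3 := agr_iff hπ z a x h1
  rw [h2] at h3
  simp only [Bool.and_eq_true, decide_eq_true_eq, h3, h2]

/-- The sum for given labels. -/
def tot (Q : ℕ) (J : Game) (a : ℕ → Fin q₁) (X : ℕ → ℕ → Fin q₁) : ℕ :=
  ∑ p₁ ∈ edges J, ∑ p₀ ∈ edges J, inn Q J p₁.1 (a p₁.1) p₀.1 (X p₁.1 p₀.1)

include hS in
theorem total_eq (q Q : ℕ) : total q Q J = ∑ p₁ ∈ edges J, best (fun a => ∑ p₀ ∈ edges J,
    best (fun x => inn Q J p₁.1 a p₀.1 x) q) q := by
  classical
  obtain ⟨ed, hed, hed'⟩ := exists_ed hS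
  unfold total mid
  rw [sum_list hS hed]
  refine sum_congr rfl fun p hp => ?_
  congr 1
  funext a
  rw [sum_list hS hed, (hed' p hp).2]
  exact sum_congr rfl fun p₀ hp₀ => by rw [(hed' p₀ hp₀).2]

include hS in
theorem tot_le (Q : ℕ) (a : ℕ → Fin q₁) (X : ℕ → ℕ → Fin q₁) : tot Q J a X ≤ total q₁ Q J := by
  rw [total_eq hS]
  unfold tot
  refine sum_le_sum fun p₁ _ => ?_
  refine le_trans ?_ (le_best _ (a p₁.1).2)
  refine sum_le_sum fun p₀ _ => ?_
  exact le_best (fun x => inn Q J p₁.1 (a p₁.1) p₀.1 x) (X p₁.1 p₀.1).2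

include hS in
theorem exists_tot (hq : 0 < q₁) (Q : ℕ) : ∃ (a : ℕ → Fin q₁) (X : ℕ → ℕ → Fin q₁),
    total q₁ Q J = tot Q J a X := by
  have h1 : ∀ z : ℕ, ∃ a : Fin q₁, best (fun a => ∑ p₀ ∈ edges J,
    best (fun x => inn Q J z a p₀.1 x) q₁) q₁ = ∑ p₀ ∈ edges J,
    best (fun x => inn Q J z a p₀.1 x) q₁ := fun z => exists_best _ hq
  choose a ha using h1
  have h2 : ∀ z u : ℕ, ∃ x : Fin q₁, best (fun x => inn Q J z (a z) u x) q₁ =
      inn Q J z (a z) u x := fun z u => exists_best _ hq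
  choose X hX using h2
  refine ⟨a, X, ?_⟩
  rw [total_eq hS]
  unfold tot
  refine sum_congr rfl fun p₁ _ => ?_
  rw [ha]
  exact sum_congr rfl fun p₀ _ => hX _ _

/-- The sum of the real weights. -/
theorem sum_real (E : Finset (ℕ × ℕ)) (a : ℕ → Fin q₁) (X : ℕ → ℕ → Fin q₁) :
    ∑ p₁ ∈ E, ∑ p₀ ∈ E, ∑ p ∈ E, (if p.1 = p₀.1 ∧ (p₁.1, p.2) ∈ E ∧
      π p (X p₁.1 p₀.1) = π (p₁.1, p.2) (a p₁.1) then
        om E (p₀.1, p.2) (p₁.1, p.2) /
          (((nR E p₁.1).card : ℝ) * ((nR E p₀.1).card : ℝ)) else 0) = T π E a X := by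
  classical
  unfold T
  have h1 : ∀ p₁ : ℕ × ℕ, ∑ p₀ ∈ E, ∑ p ∈ E, (if p.1 = p₀.1 ∧ (p₁.1, p.2) ∈ E ∧
      π p (X p₁.1 p₀.1) = π (p₁.1, p.2) (a p₁.1) then
        om E (p₀.1, p.2) (p₁.1, p.2) /
          (((nR E p₁.1).card : ℝ) * ((nR E p₀.1).card : ℝ)) else 0) =
      ∑ p ∈ E, (if (p₁.1, p.2) ∈ E then (if π p (X p₁.1 p.1) = π (p₁.1, p.2) (a p₁.1) then
        om E p (p₁.1, p.2) else 0) else 0) / ((nR E p₁.1).card : ℝ) := by
    intro p₁
    rw [sum_comm]
    refine sum_congr rfl fun p hp => ?_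
    have h2 : ∀ p₀ ∈ E, (if p.1 = p₀.1 ∧ (p₁.1, p.2) ∈ E ∧
        π p (X p₁.1 p₀.1) = π (p₁.1, p.2) (a p₁.1) then
        om E (p₀.1, p.2) (p₁.1, p.2) /
          (((nR E p₁.1).card : ℝ) * ((nR E p₀.1).card : ℝ)) else 0) =
        if p₀.1 = p.1 then ((if (p₁.1, p.2) ∈ E then
        (if π p (X p₁.1 p.1) = π (p₁.1, p.2) (a p₁.1) then
        om E p (p₁.1, p.2) else 0) else 0) / ((nR E p₁.1).card : ℝ)) / ((nR E p.1).card : ℝ)
        else 0 := by
      intro p₀ _
      by_cases h3 : p₀.1 = p.1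
      · rw [if_pos h3, h3]
        by_cases h4 : (p₁.1, p.2) ∈ E
        · by_cases h5 : π p (X p₁.1 p.1) = π (p₁.1, p.2) (a p₁.1)
          · rw [if_pos ⟨rfl, h4, h5⟩, if_pos h4, if_pos h5, div_div]
          · rw [if_neg (fun h => h5 h.2.2), if_pos h4, if_neg h5, zero_div, zero_div]
        · rw [if_neg (fun h => h4 h.2.1), if_neg h4, zero_div, zero_div]
      · rw [if_neg h3, if_neg (fun h => h3 h.1.symm)]
    rw [sum_congr rfl h2, ← sum_filter, sum_const, ← card_nR, nsmul_eq_mul]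
    have hpos : (0 : ℝ) < (nR E p.1).card := by
      exact_mod_cast card_pos.2 ⟨p.2, mem_nR.2 hp⟩
    field_simp
  rw [sum_congr rfl fun p₁ _ => h1 p₁, sum_comm]
  refine sum_congr rfl fun p _ => ?_
  rw [sum_ends_nb p.2 fun z => if π p (X z p.1) = π (z, p.2) (a z) then om E p (z, p.2) else 0]
  refine sum_congr rfl fun f hf => ?_
  obtain ⟨_, hf2⟩ := mem_filter.1 hf
  have h3 : (f.1, p.2) = f := Prod.ext rfl hf2.symm
  rw [h3]

include hS hπ in
theorem tot_bounds (Q : ℕ) (a : ℕ → Fin q₁) (X : ℕ → ℕ → Fin q₁) :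
    (tot Q J a X : ℝ) ≤ Q * T π (edges J) a X ∧
      Q * T π (edges J) a X ≤ tot Q J a X + (J.length : ℝ) ^ 4 := by
  classical
  rw [← sum_real]
  unfold tot
  push_cast
  simp only [mul_sum]
  constructor
  · refine sum_le_sum fun p₁ _ => sum_le_sum fun p₀ _ => ?_
    rw [inn_eq hS hπ]
    push_cast
    refine sum_le_sum fun p _ => ?_
    split_ifs with h
    · exact (pw_le hS Q p₁.1 p₀.1 p.2).1
    · rw [mul_zero]
  · calc _ ≤ ∑ p₁ ∈ edges J, ∑ p₀ ∈ edges J,
          ((inn Q J p₁.1 (a p₁.1) p₀.1 (X p₁.1 p₀.1) : ℝ) + (J.length : ℝ) ^ 2) := by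
          refine sum_le_sum fun p₁ _ => sum_le_sum fun p₀ _ => ?_
          rw [inn_eq hS hπ]
          push_cast
          calc _ ≤ ∑ p ∈ edges J, ((if p.1 = p₀.1 ∧ (p₁.1, p.2) ∈ edges J ∧
                π p (X p₁.1 p₀.1) = π (p₁.1, p.2) (a p₁.1) then
                (pw Q J p₁.1 p₀.1 p.2 : ℝ) else 0) + J.length) := by
                refine sum_le_sum fun p _ => ?_
                split_ifs with h
                · exact (pw_le hS Q p₁.1 p₀.1 p.2).2
                · rw [mul_zero, zero_add]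
                  positivity
            _ = _ := by
                rw [sum_add_distrib, sum_const, card_edges hS, nsmul_eq_mul]
                ring
      _ = _ := by
          simp only [sum_add_distrib, sum_const, card_edges hS, nsmul_eq_mul]
          ring

end

end Pool.Agent.H697.CL
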