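import Mathlib

/-!
# The first element of a set in a random order
-/

namespace Pool.Agent.H697.CL

open Finset

/-- The probability that `z` is the first element of a set `A ∋ z` is `1 / |A|`. -/
theorem card_first {S : Type} [Fintype S] [DecidableEq S] {n : ℕ} (A : Finset S) {z : S}
    (hz : z ∈ A) :
    (univ.filter fun σ : S ≃ Fin n => ∀ y ∈ A, σ z ≤ σ y).card * A.card =
      Fintype.card (S ≃ Fin n) := by
  set B : S → Finset (S ≃ Fin n) := fun x => univ.filter fun σ => ∀ y ∈ A, σ x ≤ σ y with hB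
  have hmem : ∀ x σ, σ ∈ B x ↔ ∀ y ∈ A, σ x ≤ σ y := fun x σ => by
    rw [hB]; simp
  have h1 : ∀ x ∈ A, (B x).card = (B z).card := by
    intro x hx
    have hsw : ∀ y ∈ A, Equiv.swap x z y ∈ A := by
      intro y hy
      by_cases h : y = x
      · rw [h, Equiv.swap_apply_left]; exact hz
      · by_cases h' : y = z
        · rw [h', Equiv.swap_apply_right]; exact hx
        · rw [Equiv.swap_apply_of_ne_of_ne h h']; exact hy
    refine card_bij' (fun σ _ => (Equiv.swap x z).trans σ) (fun σ _ => (Equiv.swap x z).trans σ)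
      ?_ ?_ ?_ ?_
    · intro σ hσ
      rw [hmem] at hσ ⊢
      intro y hy
      simp only [Equiv.trans_apply, Equiv.swap_apply_right]
      exact hσ _ (hsw y hy)
    · intro σ hσ
      rw [hmem] at hσ ⊢
      intro y hy
      simp only [Equiv.trans_apply, Equiv.swap_apply_left]
      exact hσ _ (hsw y hy)
    · intro σ _
      ext y
      simp
    · intro σ _
      ext y
      simp
  have h2 : (univ : Finset (S ≃ Fin n)) = A.biUnion B := by
    ext σ
    simp only [mem_univ, mem_biUnion, true_iff]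
    obtain ⟨x, hx, hx'⟩ := exists_min_image A σ ⟨z, hz⟩
    exact ⟨x, hx, (hmem x σ).2 hx'⟩
  have h3 : (A : Set S).PairwiseDisjoint B := by
    intro x hx y hy hxy
    rw [Function.onFun, disjoint_left]
    intro σ h4 h5
    rw [hmem] at h4 h5
    exact hxy (σ.injective (le_antisymm (h4 y hy) (h5 x hx)))
  have h4 : (univ : Finset (S ≃ Fin n)).card = (B z).card * A.card := by
    rw [h2, card_biUnion h3, sum_congr rfl h1, sum_const, smul_eq_mul, mul_comm]
  rw [← card_univ, h4]

/-- The rank of a number in the order `σ` of the set `Z`. -/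
def rk {Z : Finset ℕ} {n : ℕ} (σ : Z ≃ Fin n) (x : ℕ) : ℕ :=
  if h : x ∈ Z then (σ ⟨x, h⟩ : ℕ) else 0

theorem rk_inj {Z : Finset ℕ} {n : ℕ} (σ : Z ≃ Fin n) {x y : ℕ} (hx : x ∈ Z) (hy : y ∈ Z)
    (h : rk σ x = rk σ y) : x = y := by
  unfold rk at h
  rw [dif_pos hx, dif_pos hy] at h
  exact congrArg Subtype.val (σ.injective (Fin.ext h))

theorem card_rank {Z A : Finset ℕ} {n : ℕ} (hA : A ⊆ Z) {z : ℕ} (hz : z ∈ A) :
    (univ.filter fun σ : Z ≃ Fin n => ∀ y ∈ A, rk σ z ≤ rk σ y).card * A.card =
      Fintype.card (Z ≃ Fin n) := by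
  classical
  have h1 := card_first (n := n) (A.subtype fun x => x ∈ Z) (z := ⟨z, hA hz⟩)
    (mem_subtype.2 hz)
  rw [card_subtype, filter_true_of_mem fun x hx => hA hx] at h1
  rw [← h1]
  congr 2
  ext σ
  simp only [mem_filter, mem_univ, true_and, mem_subtype, Subtype.forall]
  constructor
  · intro h y hy hyA
    have := h y hyA
    unfold rk at this
    rw [dif_pos (hA hz), dif_pos hy] at this
    exact this
  · intro h y hyA
    have := h y (hA hyA) hyA
    unfold rk
    rw [dif_pos (hA hz), dif_pos (hA hyA)]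
    exact this

end Pool.Agent.H697.CL
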