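import Pool.Agent.H697.CL.Easy
import Pool.Agent.H697.LF.LCLift

/-!
# Games together with isolated edges: the clustering coefficient is the exact threshold
-/

namespace Pool.Agent.H697.CL

open Finset Pool.Agent.NPC
open Pool.Agent.H697.UG (Game Edge Simple edges mem_edges card_edges)

/-- `B` disjoint copies of the game. -/
def cop (B : ℕ) (J : Game) : Game :=
  (List.range B).flatMap fun i => J.map fun e =>
    (((2 * (B * e.1.1 + i), 2 * (B * e.1.2 + i)), e.2) : Edge)

/-- Isolated edges, `A` for every edge of the game, with the table of the first edge. -/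
def iso (A : ℕ) (J : Game) : Game :=
  (List.range (A * J.length)).map fun k =>
    (((2 * k + 1, 2 * k + 1), (J.head?.getD ((0, 0), [])).2) : Edge)

/-- `B` disjoint copies of the game together with `A` isolated edges for every edge. -/
def pad (A B : ℕ) (J : Game) : Game := cop B J ++ iso A J

theorem poly_pad (A B : ℕ) : Poly (pad A B) := by
  unfold pad cop iso
  refine Poly.append (Poly.flatMap (F := fun (J : Game) i => J.map fun e =>
    (((2 * (B * e.1.1 + i), 2 * (B * e.1.2 + i)), e.2) : Edge)) (NPC.Poly.const _)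
    (NPC.Poly.map (F := fun (p : Game × ℕ) (e : Edge) =>
      (((2 * (B * e.1.1 + p.2), 2 * (B * e.1.2 + p.2)), e.2) : Edge)) (Poly.fst Poly.id) ?_))
    (NPC.Poly.map (F := fun (J : Game) k =>
      (((2 * k + 1, 2 * k + 1), (J.head?.getD ((0, 0), [])).2) : Edge))
      (UPoly.range (UPoly.mul (UPoly.const A) (UPoly.length Poly.id))) ?_)
  · have i : Poly (fun p : (Game × ℕ) × Edge => p) := Poly.id
    have h2 : Poly (fun p : (Game × ℕ) × Edge => p.2) := Poly.snd i
    have hi : Poly (fun p : (Game × ℕ) × Edge => p.1.2) := Poly.snd (Poly.fst i)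
    exact Poly.pair (Poly.pair
      (Poly.mul (NPC.Poly.const 2) (Poly.add (Poly.mul (NPC.Poly.const B)
        (Poly.fst (Poly.fst h2))) hi))
      (Poly.mul (NPC.Poly.const 2) (Poly.add (Poly.mul (NPC.Poly.const B)
        (Poly.snd (Poly.fst h2))) hi))) (Poly.snd h2)
  · have i : Poly (fun p : Game × ℕ => p) := Poly.id
    have hk : Poly (fun p : Game × ℕ => 2 * p.2 + 1) :=
      Poly.add (Poly.mul (NPC.Poly.const 2) (Poly.snd i)) (NPC.Poly.const 1)
    exact Poly.pair (Poly.pair hk hk) (Poly.snd (Poly.head?_getD (Poly.fst i) ((0, 0), [])))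

theorem length_cop (B : ℕ) (J : Game) : (cop B J).length = B * J.length := by
  unfold cop
  rw [List.length_flatMap]
  simp

theorem length_iso (A : ℕ) (J : Game) : (iso A J).length = A * J.length := by
  unfold iso
  simp

theorem length_pad (A B : ℕ) (J : Game) : (pad A B J).length = (A + B) * J.length := by
  unfold pad
  rw [List.length_append, length_cop, length_iso]
  ring

theorem mem_cop {B : ℕ} {J : Game} {e : Edge} (h : e ∈ cop B J) :
    ∃ e' ∈ J, ∃ i < B, e = ((2 * (B * e'.1.1 + i), 2 * (B * e'.1.2 + i)), e'.2) := by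
  unfold cop at h
  rw [List.mem_flatMap] at h
  obtain ⟨i, hi, h⟩ := h
  rw [List.mem_map] at h
  obtain ⟨e', he', rfl⟩ := h
  exact ⟨e', he', i, List.mem_range.1 hi, rfl⟩

theorem mem_iso {A : ℕ} {J : Game} {e : Edge} (h : e ∈ iso A J) :
    ∃ k < A * J.length, e = ((2 * k + 1, 2 * k + 1), (J.head?.getD ((0, 0), [])).2) := by
  unfold iso at h
  rw [List.mem_map] at h
  obtain ⟨k, hk, rfl⟩ := h
  exact ⟨k, List.mem_range.1 hk, rfl⟩

theorem head_mem {J : Game} (hJ : J ≠ []) : J.head?.getD ((0, 0), []) ∈ J := by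
  cases J with
  | nil => exact absurd rfl hJ
  | cons a l => simp

theorem simple_pad {A B : ℕ} {J : Game} (hS : Simple J) : Simple (pad A B J) := by
  unfold Simple pad
  rw [List.map_append, List.nodup_append]
  refine ⟨?_, ?_, ?_⟩
  · unfold cop
    rw [List.map_flatMap, List.nodup_flatMap]
    constructor
    · intro i _
      rw [List.map_map]
      have h1 : (J.map ((Prod.fst : Edge → ℕ × ℕ) ∘ fun e =>
          (((2 * (B * e.1.1 + i), 2 * (B * e.1.2 + i)), e.2) : Edge))) =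
          (J.map Prod.fst).map fun p : ℕ × ℕ => (2 * (B * p.1 + i), 2 * (B * p.2 + i)) := by
        rw [List.map_map]
        rfl
      rw [h1]
      rcases Nat.eq_zero_or_pos B with h0 | hpos
      · subst h0
        simp_all
      · refine List.Nodup.map ?_ hS
        rintro ⟨a, b⟩ ⟨a', b'⟩ h
        simp only [Prod.mk.injEq] at h
        obtain ⟨h2, h3⟩ := h
        have h4 : B * a = B * a' := by omega
        have h5 : B * b = B * b' := by omega
        rw [Nat.eq_of_mul_eq_mul_left hpos h4, Nat.eq_of_mul_eq_mul_left hpos h5]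
    · refine List.Nodup.pairwise_of_forall_ne List.nodup_range ?_
      intro i hi j hj hne
      rw [Function.onFun, List.disjoint_left]
      intro p hp hp'
      rw [List.mem_map] at hp hp'
      obtain ⟨e, he, rfl⟩ := hp
      obtain ⟨e', he', h⟩ := hp'
      rw [List.mem_map] at he he'
      obtain ⟨f, _, rfl⟩ := he
      obtain ⟨f', _, rfl⟩ := he'
      simp only [Prod.mk.injEq] at h
      have hiB := List.mem_range.1 hi
      have hjB := List.mem_range.1 hj
      have h4 : B * f'.1.1 + j = B * f.1.1 + i := by omega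
      have h5 : (B * f'.1.1 + j) % B = (B * f.1.1 + i) % B := by rw [h4]
      rw [Nat.mul_add_mod, Nat.mul_add_mod, Nat.mod_eq_of_lt hiB, Nat.mod_eq_of_lt hjB] at h5
      exact hne h5.symm
  · unfold iso
    rw [List.map_map]
    refine List.Nodup.map ?_ List.nodup_range
    intro k k' h
    simp only [Function.comp, Prod.mk.injEq] at h
    omega
  · intro a ha b hb hab
    subst hab
    rw [List.mem_map] at ha hb
    obtain ⟨e, he, rfl⟩ := ha
    obtain ⟨e', he', h⟩ := hb
    obtain ⟨f, _, i, _, rfl⟩ := mem_cop he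
    obtain ⟨k, _, rfl⟩ := mem_iso he'
    simp only [Prod.mk.injEq] at h
    omega

/-- A lower bound by the number of isolated edges. -/
theorem clus_ge_isolated {J : Game} (hJ : J ≠ []) (S : Finset (ℕ × ℕ)) (hS : S ⊆ edges J)
    (h1 : ∀ e ∈ S, nR (edges J) e.1 = {e.2}) : (S.card : ℝ) ≤ clus J * (edges J).card := by
  classical
  have hne := edges_nonempty hJ
  have hpos : (0 : ℝ) < (edges J).card := by exact_mod_cast card_pos.2 hne
  unfold clus
  rw [div_mul_cancel₀ _ hpos.ne']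
  have hnn : ∀ e ∈ edges J, 0 ≤ (∑ v' ∈ nR (edges J) e.1, jac J e.2 v') /
      ((nR (edges J) e.1).card : ℝ) := by
    intro e _
    refine div_nonneg (sum_nonneg fun v' _ => ?_) (by positivity)
    unfold jac
    positivity
  refine le_trans (le_of_eq ?_) (sum_le_sum_of_subset_of_nonneg hS fun e he _ => hnn e he)
  rw [card_eq_sum_ones]
  push_cast
  refine sum_congr rfl fun e he => ?_
  rw [h1 e he, sum_singleton, card_singleton]
  have h2 : jac J e.2 e.2 = 1 := by
    unfold jac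
    rw [inter_self, union_self]
    exact div_self (by exact_mod_cast (card_pos.2 ⟨e.1, mem_nb.2 (hS he)⟩).ne')
  rw [h2]
  norm_num

theorem clustered_pad {A B : ℕ} {J : Game} (hS : Simple J) (hJ : J ≠ []) (hAB : 0 < A + B)
    {γ : ℝ} (hγ : γ * (A + B) ≤ A) : Clustered γ (pad A B J) := by
  classical
  have hS' := simple_pad (A := A) (B := B) hS
  have hlen : 0 < J.length := List.length_pos_iff.2 hJ
  have hlen' : 0 < (pad A B J).length := by
    rw [length_pad]; exact Nat.mul_pos hAB hlen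
  refine ⟨hS', ?_⟩
  have h1 := clus_ge_isolated (J := pad A B J) (List.length_pos_iff.1 hlen') (edges (iso A J)) (by
    intro p hp
    rw [mem_edges] at hp ⊢
    obtain ⟨e, he, h⟩ := hp
    exact ⟨e, List.mem_append_right _ he, h⟩) (by
    intro p hp
    rw [mem_edges] at hp
    obtain ⟨e, he, rfl⟩ := hp
    have he0 := he
    obtain ⟨k, hk, rfl⟩ := mem_iso he
    ext v
    rw [mem_nR, mem_edges, mem_singleton]
    constructor
    · rintro ⟨e', he', h⟩
      unfold pad at he'
      rw [List.mem_append] at he'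
      rcases he' with he' | he'
      · obtain ⟨f, _, i, _, rfl⟩ := mem_cop he'
        simp only [Prod.mk.injEq] at h
        omega
      · obtain ⟨k', _, rfl⟩ := mem_iso he'
        simp only [Prod.mk.injEq] at h
        show v = 2 * k + 1
        omega
    · intro h
      exact ⟨_, List.mem_append_right _ he0, by rw [h]⟩)
  have h2 : Simple (iso A J) := by
    unfold Simple at hS' ⊢
    unfold pad at hS'
    rw [List.map_append, List.nodup_append] at hS'
    exact hS'.2.1
  rw [card_edges h2, card_edges hS', length_iso, length_pad] at h1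
  push_cast at h1
  have h3 : (0 : ℝ) < J.length := by exact_mod_cast hlen
  have h4 : (0 : ℝ) < A + B := by exact_mod_cast hAB
  have h5 : (γ * (A + B)) * J.length ≤ (clus (pad A B J) * (A + B)) * J.length := by
    calc (γ * (A + B)) * J.length ≤ A * J.length := mul_le_mul_of_nonneg_right hγ h3.le
      _ ≤ clus (pad A B J) * ((A + B) * J.length) := h1
      _ = _ := by ring
  exact le_of_mul_le_mul_right (le_of_mul_le_mul_right h5 h3) h4

open Pool.Agent.H697.LC

theorem isGame_pad {A B d q₁ q₂ : ℕ} (hAB : 0 < A + B) {J : Game} (hJ : IsGame d q₁ q₂ J) :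
    IsGame d q₁ q₂ (pad A B J) := by
  obtain ⟨hne, hJ⟩ := hJ
  refine ⟨List.length_pos_iff.1 ?_, fun e he => ?_⟩
  · rw [length_pad]; exact Nat.mul_pos hAB (List.length_pos_iff.2 hne)
  · unfold pad at he
    rw [List.mem_append] at he
    rcases he with he | he
    · obtain ⟨f, hf, i, _, rfl⟩ := mem_cop he
      exact hJ f hf
    · obtain ⟨k, _, rfl⟩ := mem_iso he
      have h := hJ _ (head_mem hne)
      exact h

theorem numSat_append {q₁ q₂ : ℕ} (I J : Game) (L : ℕ → Fin q₁) (M : ℕ → Fin q₂) :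
    numSat (I ++ J) L M = numSat I L M + numSat J L M := by
  unfold numSat
  rw [List.filter_append, List.length_append]

theorem list_sum_range (f : ℕ → ℕ) (n : ℕ) :
    ((List.range n).map f).sum = ∑ i ∈ range n, f i := by
  induction n with
  | zero => simp
  | succ n ih =>
    rw [List.range_succ, List.map_append, List.sum_append, ih, sum_range_succ]
    simp

theorem numSat_cop {q₁ q₂ : ℕ} (B : ℕ) (J : Game) (L : ℕ → Fin q₁) (M : ℕ → Fin q₂) :
    numSat (cop B J) L M = ∑ i ∈ range B, numSat J (fun u => L (2 * (B * u + i)))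
      (fun v => M (2 * (B * v + i))) := by
  unfold numSat cop
  rw [List.filter_flatMap, List.length_flatMap, ← list_sum_range]
  congr 1
  refine List.map_congr_left fun i _ => ?_
  rw [List.filter_map, List.length_map]
  rfl

theorem numSat_le {q₁ q₂ : ℕ} (J : Game) (L : ℕ → Fin q₁) (M : ℕ → Fin q₂) :
    numSat J L M ≤ J.length := List.length_filter_le _ _

theorem complete_pad {A B d q₁ q₂ : ℕ} (hq₁ : 0 < q₁) {J : Game} (hJ : IsGame d q₁ q₂ J)
    (L : ℕ → Fin q₁) (M : ℕ → Fin q₂) : ∃ (L' : ℕ → Fin q₁) (M' : ℕ → Fin q₂),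
    numSat (pad A B J) L' M' = B * numSat J L M + A * J.length := by
  obtain ⟨h1, h2, -⟩ := hJ.2 _ (head_mem hJ.1)
  have h3 : 0 < (J.head?.getD ((0, 0), [])).2.length := by rw [h1]; exact hq₁
  set y : Fin q₂ := ⟨(J.head?.getD ((0, 0), [])).2[0], h2 _ (List.getElem_mem h3)⟩ with hy
  have h4 : (J.head?.getD ((0, 0), [])).2[0]? = some (y : ℕ) := List.getElem?_eq_getElem h3
  set L' : ℕ → Fin q₁ := fun n => if n % 2 = 0 then L (n / 2 / B) else ⟨0, hq₁⟩ with hL'
  set M' : ℕ → Fin q₂ := fun n => if n % 2 = 0 then M (n / 2 / B) else y with hM'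
  refine ⟨L', M', ?_⟩
  unfold pad
  rw [numSat_append, numSat_cop]
  congr 1
  · rw [sum_congr rfl fun i hi => show numSat J (fun u => L' (2 * (B * u + i)))
      (fun v => M' (2 * (B * v + i))) = numSat J L M from ?_, sum_const, card_range, smul_eq_mul]
    have hi' := mem_range.1 hi
    have hB : 0 < B := by omega
    have h5 : ∀ u, 2 * (B * u + i) % 2 = 0 := fun u => by omega
    have h6 : ∀ u, 2 * (B * u + i) / 2 / B = u := fun u => by
      rw [Nat.mul_div_cancel_left _ (by norm_num), Nat.mul_add_div hB, Nat.div_eq_of_lt hi',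
        add_zero]
    congr 1
    · funext u
      rw [hL']
      dsimp only
      rw [if_pos (h5 u), h6]
    · funext u
      rw [hM']
      dsimp only
      rw [if_pos (h5 u), h6]
  · rw [← length_iso A J]
    unfold numSat
    rw [List.length_filter_eq_length_iff]
    intro e he
    obtain ⟨k, _, rfl⟩ := mem_iso he
    rw [decide_eq_true_eq]
    unfold Sat
    have h7 : (2 * k + 1) % 2 ≠ 0 := by omega
    have h8 : L' (2 * k + 1) = ⟨0, hq₁⟩ := by
      rw [hL']
      exact if_neg h7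
    have h9 : M' (2 * k + 1) = y := by
      rw [hM']
      exact if_neg h7
    dsimp only
    rw [h8, h9]
    exact h4

theorem yes_pad {A B d q₁ q₂ : ℕ} (hq₁ : 0 < q₁) (hAB : 0 < A + B) {ε : ℝ} {J : Game}
    (hJ : Yes d q₁ q₂ ε J) : Yes d q₁ q₂ ε (pad A B J) := by
  obtain ⟨hG, L, M, hLM⟩ := hJ
  obtain ⟨L', M', h⟩ := complete_pad (A := A) (B := B) hq₁ hG L M
  refine ⟨isGame_pad hAB hG, L', M', ?_⟩
  rw [h, length_pad]
  push_cast
  have h1 : (0 : ℝ) < J.length := by exact_mod_cast List.length_pos_iff.2 hG.1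
  have h2 : (numSat J L M : ℝ) ≤ J.length := by exact_mod_cast numSat_le J L M
  have h3 : 0 ≤ ε := by
    by_contra hneg
    push Not at hneg
    nlinarith
  have h4 : (B : ℝ) * ((1 - ε) * J.length) ≤ B * numSat J L M :=
    mul_le_mul_of_nonneg_left hLM (by positivity)
  have h5 : 0 ≤ ε * (A * J.length) := by positivity
  nlinarith

theorem no_pad {A B d q₁ q₂ : ℕ} (hAB : 0 < A + B) {δ δ' : ℝ}
    (h : A + B * δ' ≤ δ * (A + B)) {J : Game} (hJ : No d q₁ q₂ δ' J) :
    No d q₁ q₂ δ (pad A B J) := by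
  obtain ⟨hG, hno⟩ := hJ
  refine ⟨isGame_pad hAB hG, fun L M => ?_⟩
  unfold pad
  rw [numSat_append, numSat_cop, List.length_append, length_cop, length_iso]
  push_cast
  have h1 : (numSat (iso A J) L M : ℝ) ≤ A * J.length := by
    have := numSat_le (iso A J) L M
    rw [length_iso] at this
    exact_mod_cast this
  have h2 : (∑ i ∈ range B, (numSat J (fun u => L (2 * (B * u + i)))
      (fun v => M (2 * (B * v + i))) : ℝ)) ≤ ∑ i ∈ range B, δ' * J.length :=
    sum_le_sum fun i _ => hno _ _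
  rw [sum_const, card_range, nsmul_eq_mul] at h2
  have h3 : (0 : ℝ) < J.length := by exact_mod_cast List.length_pos_iff.2 hG.1
  have h4 := mul_le_mul_of_nonneg_right h h3.le
  calc _ ≤ B * (δ' * J.length) + A * J.length := add_le_add h2 h1
    _ = (A + B * δ') * J.length := by ring
    _ ≤ δ * (A + B) * J.length := h4
    _ = _ := by ring

/-- The parameters. -/
theorem exists_params {γ δ : ℝ} (h0 : 0 ≤ γ) (hγ : γ < 1) (h : γ < δ) :
    ∃ (A B : ℕ) (δ' : ℝ), 0 < A + B ∧ 0 < δ' ∧ γ * (A + B) ≤ A ∧ A + B * δ' ≤ δ * (A + B) := by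
  obtain ⟨r, hr1, hr2⟩ := exists_rat_btwn (show γ < min δ 1 from lt_min h hγ)
  have hr3 : (r : ℝ) < δ := lt_of_lt_of_le hr2 (min_le_left _ _)
  have hr4 : (r : ℝ) < 1 := lt_of_lt_of_le hr2 (min_le_right _ _)
  have hr0 : (0 : ℝ) < r := lt_of_le_of_lt h0 hr1
  have hr0' : 0 < r := by exact_mod_cast hr0
  have hnum : 0 < r.num := Rat.num_pos.2 hr0'
  have hden : (0 : ℝ) < r.den := by exact_mod_cast r.den_pos
  have hr : (r : ℝ) = r.num.toNat / r.den := by
    have h1 : ((r.num.toNat : ℤ) : ℝ) = (r.num : ℝ) := by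
      exact_mod_cast Int.toNat_of_nonneg hnum.le
    have h2 : ((r.num.toNat : ℕ) : ℝ) = (r.num : ℝ) := by
      rw [← h1]; norm_cast
    rw [h2]
    exact_mod_cast (Rat.num_div_den r).symm
  set a := r.num.toNat with ha
  have hab : (a : ℝ) < r.den := by
    rw [hr, div_lt_one hden] at hr4
    exact hr4
  have hab' : a < r.den := by exact_mod_cast hab
  have h1 : (a : ℝ) = r * r.den := by rw [hr]; field_simp
  refine ⟨a, r.den - a, δ - r, by omega, by linarith, ?_, ?_⟩
  · rw [Nat.cast_sub hab'.le]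
    nlinarith
  · rw [Nat.cast_sub hab'.le]
    have h2 : (a : ℝ) + ((r.den : ℝ) - a) * (δ - r) ≤ a + r.den * (δ - r) := by
      have h3 : (0 : ℝ) ≤ a := by positivity
      have : ((r.den : ℝ) - a) * (δ - r) ≤ r.den * (δ - r) :=
        mul_le_mul_of_nonneg_right (by linarith) (by linarith)
      linarith
    refine h2.trans (le_of_eq ?_)
    rw [h1]
    ring

/-- The general problem reduces to the problem for clustered games, if the value of the
no-instances is allowed to be larger than the clustering coefficient. -/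
theorem exists_reduction_clus {γ δ : ℝ} (h0 : 0 ≤ γ) (hγ : γ < 1) (h : γ < δ) :
    ∃ δ' : ℝ, 0 < δ' ∧ ∀ (d q₁ q₂ : ℕ) (ε : ℝ), 0 < q₁ → 0 < q₂ →
      ∃ F : Game → Game, Poly F ∧ ∀ I,
        (Yes d q₁ q₂ ε I ∨ No d q₁ q₂ δ' I → Clustered γ (F I)) ∧
        (Yes d q₁ q₂ ε I → Yes d q₁ q₂ ε (F I)) ∧ (No d q₁ q₂ δ' I → No d q₁ q₂ δ (F I)) := by
  obtain ⟨A, B, δ₁, hAB, hδ₁, h1, h2⟩ := exists_params h0 hγ h
  have h3 : (A : ℝ) + B * min δ₁ 1 ≤ δ * (A + B) := by
    refine le_trans ?_ h2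
    have := mul_le_mul_of_nonneg_left (min_le_left δ₁ 1) (show (0 : ℝ) ≤ B by positivity)
    linarith
  have hm : 0 < min δ₁ 1 := lt_min hδ₁ one_pos
  refine ⟨min δ₁ 1 / 2, by linarith, fun d q₁ q₂ ε hq₁ hq₂ => ?_⟩
  obtain ⟨F, hF, hFI⟩ := exists_reduction_LC d hq₁ hq₂ 0 ε
    (show min δ₁ 1 / 2 < min δ₁ 1 by linarith) hm.le (min_le_right _ _)
  refine ⟨fun I => pad A B (F I), (poly_pad A B).comp hF, fun I => ⟨?_, fun hY => ?_,
    fun hN => ?_⟩⟩
  · intro hI
    have hne : F I ≠ [] := by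
      rcases hI with hI | hI
      · exact ((hFI I).2.2.2.1 hI).1.1
      · exact ((hFI I).2.2.2.2 hI).1.1
    exact clustered_pad (hFI I).1 hne hAB h1
  · exact yes_pad hq₁ hAB ((hFI I).2.2.2.1 hY)
  · exact no_pad hAB h3 ((hFI I).2.2.2.2 hN)

/-- Hardness of clustered projection games. -/
theorem hard_clus_LC {γ δ : ℝ} (h0 : 0 ≤ γ) (hγ : γ < 1) (h : γ < δ) :
    ∃ δ' : ℝ, 0 < δ' ∧ ∀ (d q₁ q₂ : ℕ) (ε : ℝ), 0 < q₁ → 0 < q₂ →
      (Hard (fun _ => True) (Yes d q₁ q₂ ε) (No d q₁ q₂ δ') →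
        Hard (Clustered γ) (Yes d q₁ q₂ ε) (No d q₁ q₂ δ)) ∧
      (Easy (Clustered γ) (Yes d q₁ q₂ ε) (No d q₁ q₂ δ) →
        Easy (fun _ => True) (Yes d q₁ q₂ ε) (No d q₁ q₂ δ')) := by
  obtain ⟨δ', hδ', hF⟩ := exists_reduction_clus h0 hγ h
  refine ⟨δ', hδ', fun d q₁ q₂ ε hq₁ hq₂ => ?_⟩
  obtain ⟨F, hF, hFI⟩ := hF d q₁ q₂ ε hq₁ hq₂
  exact ⟨fun hh => LF.LC_hard_of_reduction (fun I => Yes d q₁ q₂ ε I ∨ No d q₁ q₂ δ' I) hh hF
    (fun I h => Or.inl h) (fun I h => Or.inr h) (fun I hI _ => (hFI I).1 hI)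
    (fun I => (hFI I).2.1) (fun I => (hFI I).2.2),
    fun hh => LF.LC_easy_of_reduction (fun I => Yes d q₁ q₂ ε I ∨ No d q₁ q₂ δ' I) hh hF
    (fun I h => Or.inl h) (fun I h => Or.inr h) (fun I hI _ => (hFI I).1 hI)
    (fun I => (hFI I).2.1) (fun I => (hFI I).2.2)⟩

theorem isGame_UG_iff {q : ℕ} {I : Game} : UG.IsGame q I ↔ LC.IsGame 1 q q I :=
  ⟨isGame_LC, fun h => ⟨h.1, fun e he => ⟨(h.2 e he).1, (h.2 e he).2.1,
    List.nodup_iff_count_le_one.2 (h.2 e he).2.2⟩⟩⟩

theorem yes_UG_iff {q : ℕ} {ε : ℝ} {I : Game} : UG.Yes q ε I ↔ LC.Yes 1 q q ε I :=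
  ⟨fun h => ⟨isGame_UG_iff.1 h.1, h.2⟩, fun h => ⟨isGame_UG_iff.2 h.1, h.2⟩⟩

theorem no_UG_iff {q : ℕ} {δ : ℝ} {I : Game} : UG.No q δ I ↔ LC.No 1 q q δ I :=
  ⟨fun h => ⟨isGame_UG_iff.1 h.1, h.2⟩, fun h => ⟨isGame_UG_iff.2 h.1, h.2⟩⟩

/-- Hardness of clustered unique games. -/
theorem hard_clus_UG {γ δ : ℝ} (h0 : 0 ≤ γ) (hγ : γ < 1) (h : γ < δ) :
    ∃ δ' : ℝ, 0 < δ' ∧ ∀ (q : ℕ) (ε : ℝ), 0 < q →
      (UG.Hard (fun _ => True) q ε δ' → UG.Hard (Clustered γ) q ε δ) ∧
      (UG.Easy (Clustered γ) q ε δ → UG.Easy (fun _ => True) q ε δ') := by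
  obtain ⟨δ', hδ', hF⟩ := hard_clus_LC h0 hγ h
  refine ⟨δ', hδ', fun q ε hq => ⟨fun hh => ?_, fun hh => ?_⟩⟩
  · have h1 : Hard (fun _ => True) (Yes 1 q q ε) (No 1 q q δ') :=
      Hard.mono (Cl := fun _ => True) (Y := UG.Yes q ε) (N := UG.No q δ') hh (fun _ h => h)
        (fun _ h => yes_UG_iff.1 h) (fun _ h => no_UG_iff.1 h)
    exact ((hF 1 q q ε hq hq).1 h1).mono (fun _ h => h) (fun _ h => yes_UG_iff.2 h)
      (fun _ h => no_UG_iff.2 h)
  · have h1 : Easy (Clustered γ) (Yes 1 q q ε) (No 1 q q δ) :=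
      Easy.mono (Cl' := Clustered γ) (Y' := UG.Yes q ε) (N' := UG.No q δ) hh (fun _ h => h)
        (fun _ h => yes_UG_iff.2 h) (fun _ h => no_UG_iff.2 h)
    exact ((hF 1 q q ε hq hq).2 h1).mono (fun _ h => h) (fun _ h => yes_UG_iff.1 h)
      (fun _ h => no_UG_iff.1 h)

end Pool.Agent.H697.CL
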