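import Pool.Agent.H697.CL.Order

/-!
# Labellings from random leaders
-/

namespace Pool.Agent.H697.CL

open Finset

variable (E : Finset (ℕ × ℕ))

/-- The left neighbours of `v`. -/
def nb (v : ℕ) : Finset ℕ := (E.filter fun e => e.2 = v).image Prod.fst

/-- The right neighbours of `u`. -/
def nR (u : ℕ) : Finset ℕ := (E.filter fun e => e.1 = u).image Prod.snd

variable {E}

theorem mem_nb {u v : ℕ} : u ∈ nb E v ↔ (u, v) ∈ E := by
  unfold nb
  simp only [mem_image, mem_filter, Prod.exists, exists_and_right, exists_eq_right]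

theorem mem_nR {u v : ℕ} : v ∈ nR E u ↔ (u, v) ∈ E := by
  unfold nR
  simp only [mem_image, mem_filter, Prod.exists, exists_eq_right]

theorem card_nb (v : ℕ) : (nb E v).card = (E.filter fun e => e.2 = v).card := by
  unfold nb
  refine card_image_of_injOn fun e he f hf h => ?_
  rw [mem_coe, mem_filter] at he hf
  exact Prod.ext h (he.2.trans hf.2.symm)

theorem card_nR (u : ℕ) : (nR E u).card = (E.filter fun e => e.1 = u).card := by
  unfold nR
  refine card_image_of_injOn fun e he f hf h => ?_
  rw [mem_coe, mem_filter] at he hf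
  exact Prod.ext (he.2.trans hf.2.symm) h

variable (E)

/-- The weight of a pair of edges `e = (u, v)`, `f = (z, v)`. -/
noncomputable def om (e f : ℕ × ℕ) : ℝ :=
  ∑ v' ∈ nR E e.1 ∩ nR E f.1, 1 / (((nR E e.1).card : ℝ) * ((nb E e.2 ∪ nb E v').card : ℝ))

variable {E}

theorem om_nonneg (e f : ℕ × ℕ) : 0 ≤ om E e f := sum_nonneg fun _ _ => by positivity

/-- The sum over all pairs of edges with the same right end. -/
theorem sum_pairs (g : ℕ × ℕ → ℕ × ℕ → ℝ) :
    ∑ e ∈ E, ∑ f ∈ E.filter (fun f => f.2 = e.2), g e f =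
      ∑ f ∈ E, ∑ e ∈ E.filter (fun e => e.2 = f.2), g e f := by
  simp only [sum_filter]
  rw [sum_comm]
  exact sum_congr rfl fun f _ => sum_congr rfl fun e _ => by simp only [eq_comm]

/-- The sum of the weights for given `e`. -/
theorem sum_om_left (e : ℕ × ℕ) : ∑ f ∈ E.filter (fun f => f.2 = e.2), om E e f =
    ∑ v' ∈ nR E e.1, ((nb E e.2 ∩ nb E v').card : ℝ) /
      (((nR E e.1).card : ℝ) * ((nb E e.2 ∪ nb E v').card : ℝ)) := by
  unfold om
  have h1 : ∀ f : ℕ × ℕ, ∑ v' ∈ nR E e.1 ∩ nR E f.1, 1 / (((nR E e.1).card : ℝ) *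
      ((nb E e.2 ∪ nb E v').card : ℝ)) = ∑ v' ∈ nR E e.1, if v' ∈ nR E f.1 then
      1 / (((nR E e.1).card : ℝ) * ((nb E e.2 ∪ nb E v').card : ℝ)) else 0 := by
    intro f
    rw [← sum_filter, filter_mem_eq_inter]
  rw [sum_congr rfl fun f _ => h1 f, sum_comm]
  refine sum_congr rfl fun v' _ => ?_
  rw [← sum_filter, sum_const, nsmul_eq_mul, mul_one_div]
  congr 2
  rw [filter_filter, ← card_image_of_injOn (s := E.filter fun f => f.2 = e.2 ∧ v' ∈ nR E f.1)
    (f := Prod.fst) ?_]
  · congr 1
    ext x
    rw [mem_inter, mem_nb, mem_nb, mem_image]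
    constructor
    · rintro ⟨f, hf, rfl⟩
      obtain ⟨h2, h3, h4⟩ := mem_filter.1 hf
      rw [← h3]
      exact ⟨h2, mem_nR.1 h4⟩
    · rintro ⟨h2, h3⟩
      exact ⟨(x, e.2), mem_filter.2 ⟨h2, rfl, mem_nR.2 h3⟩, rfl⟩
  · intro x hx y hy h
    rw [mem_coe, mem_filter] at hx hy
    exact Prod.ext h (hx.2.1.trans hy.2.1.symm)

theorem sum_om_left_le {e : ℕ × ℕ} (he : e ∈ E) :
    ∑ f ∈ E.filter (fun f => f.2 = e.2), om E e f ≤ 1 := by
  rw [sum_om_left]
  have hd : (0 : ℝ) < (nR E e.1).card := by
    exact_mod_cast card_pos.2 ⟨e.2, mem_nR.2 he⟩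
  calc ∑ v' ∈ nR E e.1, ((nb E e.2 ∩ nb E v').card : ℝ) /
        (((nR E e.1).card : ℝ) * ((nb E e.2 ∪ nb E v').card : ℝ)) ≤
        ∑ v' ∈ nR E e.1, 1 / ((nR E e.1).card : ℝ) := by
        refine sum_le_sum fun v' _ => ?_
        have hU : (0 : ℝ) < (nb E e.2 ∪ nb E v').card := by
          exact_mod_cast card_pos.2 ⟨e.1, mem_union_left _ (mem_nb.2 he)⟩
        rw [div_le_div_iff₀ (by positivity) hd, one_mul]
        have h3 : ((nb E e.2 ∩ nb E v').card : ℝ) ≤ (nb E e.2 ∪ nb E v').card := by
          exact_mod_cast card_le_card inter_subset_union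
        nlinarith
    _ = 1 := by
        rw [sum_const, nsmul_eq_mul, mul_one_div, div_self hd.ne']

theorem sum_om_right_le {f : ℕ × ℕ} (hf : f ∈ E) :
    ∑ e ∈ E.filter (fun e => e.2 = f.2), om E e f ≤ 1 := by
  have hn : (0 : ℝ) < (nb E f.2).card := by
    exact_mod_cast card_pos.2 ⟨f.1, mem_nb.2 hf⟩
  calc ∑ e ∈ E.filter (fun e => e.2 = f.2), om E e f ≤
        ∑ e ∈ E.filter (fun e => e.2 = f.2), 1 / ((nb E f.2).card : ℝ) := by
        refine sum_le_sum fun e he => ?_
        obtain ⟨he1, he2⟩ := mem_filter.1 he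
        have hd : (0 : ℝ) < (nR E e.1).card := by
          exact_mod_cast card_pos.2 ⟨e.2, mem_nR.2 he1⟩
        unfold om
        calc _ ≤ ∑ v' ∈ nR E e.1 ∩ nR E f.1,
              1 / (((nR E e.1).card : ℝ) * ((nb E f.2).card : ℝ)) := by
              refine sum_le_sum fun v' _ => ?_
              apply one_div_le_one_div_of_le (by positivity)
              have : ((nb E f.2).card : ℝ) ≤ (nb E e.2 ∪ nb E v').card := by
                rw [he2]
                exact_mod_cast card_le_card subset_union_left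
              nlinarith
          _ = ((nR E e.1 ∩ nR E f.1).card : ℝ) / (((nR E e.1).card : ℝ) *
                ((nb E f.2).card : ℝ)) := by
              rw [sum_const, nsmul_eq_mul, mul_one_div]
          _ ≤ 1 / ((nb E f.2).card : ℝ) := by
              rw [div_le_div_iff₀ (by positivity) hn, one_mul]
              have : ((nR E e.1 ∩ nR E f.1).card : ℝ) ≤ (nR E e.1).card := by
                exact_mod_cast card_le_card inter_subset_left
              nlinarith
    _ = 1 := by
        rw [sum_const, nsmul_eq_mul, ← card_nb, mul_one_div, div_self hn.ne']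

/-! ### Completeness -/

section
variable {A B : Type} [DecidableEq B] (π : ℕ × ℕ → A → B)

/-- The weight of the satisfied pairs. -/
noncomputable def T (E : Finset (ℕ × ℕ)) (a : ℕ → A) (X : ℕ → ℕ → A) : ℝ :=
  ∑ e ∈ E, ∑ f ∈ E.filter (fun f => f.2 = e.2),
    if π e (X f.1 e.1) = π f (a f.1) then om E e f else 0

/-- The number of satisfied edges. -/
def numE (E : Finset (ℕ × ℕ)) (L : ℕ → A) (M : ℕ → B) : ℕ :=
  (E.filter fun e => π e (L e.1) = M e.2).card

theorem complete (L : ℕ → A) (M : ℕ → B) :
    ∑ e ∈ E, ∑ f ∈ E.filter (fun f => f.2 = e.2), om E e f ≤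
      T π E L (fun _ u => L u) + 2 * ((E.card : ℝ) - numE π E L M) := by
  classical
  set bad := E.filter fun e => ¬ π e (L e.1) = M e.2 with hbad
  have hcard : ((E.card : ℝ) - numE π E L M) = bad.card := by
    have := card_filter_add_card_filter_not (s := E) (fun e => π e (L e.1) = M e.2)
    have h2 : (numE π E L M : ℝ) + bad.card = E.card := by
      exact_mod_cast this
    linarith
  rw [hcard]
  have h1 : ∀ e ∈ E, ∀ f ∈ E.filter (fun f => f.2 = e.2), om E e f ≤
      (if π e (L e.1) = π f (L f.1) then om E e f else 0) +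
      ((if e ∈ bad then om E e f else 0) + (if f ∈ bad then om E e f else 0)) := by
    intro e he f hf
    obtain ⟨hf1, hf2⟩ := mem_filter.1 hf
    have h0 := om_nonneg (E := E) e f
    by_cases h2 : e ∈ bad
    · rw [if_pos h2]
      split_ifs <;> linarith
    · by_cases h3 : f ∈ bad
      · rw [if_pos h3]
        split_ifs <;> linarith
      · have h4 : π e (L e.1) = M e.2 := by
          by_contra h; exact h2 (mem_filter.2 ⟨he, h⟩)
        have h5 : π f (L f.1) = M f.2 := by
          by_contra h; exact h3 (mem_filter.2 ⟨hf1, h⟩)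
        rw [if_pos (by rw [h4, h5, hf2]), if_neg h2, if_neg h3]
        linarith
  have h2 : ∑ e ∈ E, ∑ f ∈ E.filter (fun f => f.2 = e.2), (if e ∈ bad then om E e f else 0) ≤
      bad.card := by
    calc _ = ∑ e ∈ E, if e ∈ bad then ∑ f ∈ E.filter (fun f => f.2 = e.2), om E e f else 0 := by
          refine sum_congr rfl fun e _ => ?_
          split_ifs
          · rfl
          · rw [sum_const_zero]
      _ ≤ ∑ e ∈ E, if e ∈ bad then (1 : ℝ) else 0 := by
          refine sum_le_sum fun e he => ?_
          split_ifs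
          · exact sum_om_left_le he
          · exact le_rfl
      _ = bad.card := by
          rw [← sum_filter, sum_const, nsmul_eq_mul, mul_one]
          congr 2
          ext e
          simp only [mem_filter, hbad]
          tauto
  have h3 : ∑ e ∈ E, ∑ f ∈ E.filter (fun f => f.2 = e.2), (if f ∈ bad then om E e f else 0) ≤
      bad.card := by
    rw [sum_pairs]
    calc _ = ∑ f ∈ E, if f ∈ bad then ∑ e ∈ E.filter (fun e => e.2 = f.2), om E e f else 0 := by
          refine sum_congr rfl fun f _ => ?_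
          split_ifs
          · rfl
          · rw [sum_const_zero]
      _ ≤ ∑ f ∈ E, if f ∈ bad then (1 : ℝ) else 0 := by
          refine sum_le_sum fun f hf => ?_
          split_ifs
          · exact sum_om_right_le hf
          · exact le_rfl
      _ = bad.card := by
          rw [← sum_filter, sum_const, nsmul_eq_mul, mul_one]
          congr 2
          ext e
          simp only [mem_filter, hbad]
          tauto
  calc _ ≤ ∑ e ∈ E, ∑ f ∈ E.filter (fun f => f.2 = e.2),
      ((if π e (L e.1) = π f (L f.1) then om E e f else 0) +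
      ((if e ∈ bad then om E e f else 0) + (if f ∈ bad then om E e f else 0))) :=
        sum_le_sum fun e he => sum_le_sum fun f hf => h1 e he f hf
    _ ≤ _ := by
        simp only [sum_add_distrib]
        unfold T
        linarith

end

end Pool.Agent.H697.CL
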