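import Pool.Agent.H697.CL.Real

/-!
# Soundness: a labelling from random leaders
-/

namespace Pool.Agent.H697.CL

open Finset

variable {E : Finset (ℕ × ℕ)} {A B : Type} [DecidableEq B] (π : ℕ × ℕ → A → B)

/-- The count for one order. -/
theorem one_order [Nonempty A] (X : ℕ → ℕ → A) (l : ℕ → ℕ) (M : ℕ → B) :
    ∃ L : ℕ → A, ∑ e ∈ E, ∑ v' ∈ nR E e.1,
      (if π e (X (l v') e.1) = M e.2 then 1 / ((nR E e.1).card : ℝ) else 0) ≤ numE π E L M := by
  classical
  -- the number of satisfied edges at `u` with the label `x`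
  let g : ℕ → A → ℕ := fun u x => ((E.filter fun e => e.1 = u).filter fun e =>
    π e x = M e.2).card
  have h1 : ∀ u : ℕ, ∃ x : A, ∀ v' ∈ nR E u, g u (X (l v') u) ≤ g u x := by
    intro u
    by_cases hu : (nR E u).Nonempty
    · obtain ⟨v0, _, hv0⟩ := exists_max_image (nR E u) (fun v' => g u (X (l v') u)) hu
      exact ⟨X (l v0) u, hv0⟩
    · exact ⟨Classical.arbitrary A, fun v' hv' => absurd ⟨v', hv'⟩ hu⟩
  choose L hL using h1
  refine ⟨L, ?_⟩
  have h2 : ∀ (φ : ℕ × ℕ → ℝ), ∑ e ∈ E, φ e = ∑ u ∈ E.image Prod.fst,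
      ∑ e ∈ E.filter (fun e => e.1 = u), φ e := fun φ =>
    (sum_fiberwise_of_maps_to (fun e he => mem_image_of_mem _ he) φ).symm
  have h3 : (numE π E L M : ℝ) = ∑ u ∈ E.image Prod.fst, (g u (L u) : ℝ) := by
    unfold numE
    rw [card_filter]
    push_cast
    rw [h2]
    refine sum_congr rfl fun u _ => ?_
    simp only [g]
    rw [card_filter]
    push_cast
    refine sum_congr rfl fun e he => ?_
    rw [(mem_filter.1 he).2]
  rw [h2, h3]
  refine sum_le_sum fun u hu => ?_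
  have hne : 0 < (nR E u).card := by
    obtain ⟨e, he, rfl⟩ := mem_image.1 hu
    exact card_pos.2 ⟨e.2, mem_nR.2 he⟩
  have hne' : (0 : ℝ) < (nR E u).card := by exact_mod_cast hne
  calc ∑ e ∈ E.filter (fun e => e.1 = u), ∑ v' ∈ nR E e.1,
        (if π e (X (l v') e.1) = M e.2 then 1 / ((nR E e.1).card : ℝ) else 0) =
        ∑ v' ∈ nR E u, (g u (X (l v') u) : ℝ) * (1 / ((nR E u).card : ℝ)) := by
        rw [sum_congr rfl fun e he => by rw [(mem_filter.1 he).2], sum_comm]
        refine sum_congr rfl fun v' _ => ?_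
        simp only [g]
        rw [← sum_filter, sum_const, nsmul_eq_mul]
    _ ≤ ∑ v' ∈ nR E u, (g u (L u) : ℝ) * (1 / ((nR E u).card : ℝ)) := by
        refine sum_le_sum fun v' hv' => ?_
        have := hL u v' hv'
        gcongr
    _ = g u (L u) := by
        rw [sum_const, nsmul_eq_mul]
        field_simp

theorem sound [Nonempty A] (a : ℕ → A) (X : ℕ → ℕ → A) :
    ∃ (L : ℕ → A) (M : ℕ → B), T π E a X ≤ numE π E L M := by
  classical
  set Z := E.image Prod.fst with hZ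
  have hnbZ : ∀ v, nb E v ⊆ Z := fun v x hx => mem_image.2 ⟨(x, v), mem_nb.1 hx, rfl⟩
  -- the leaders
  have h1 : ∀ (σ : Z ≃ Fin Z.card) (v : ℕ), ∃ z, (nb E v).Nonempty → z ∈ nb E v ∧
      ∀ y ∈ nb E v, rk σ z ≤ rk σ y := by
    intro σ v
    by_cases hv : (nb E v).Nonempty
    · obtain ⟨z, hz, h⟩ := exists_min_image (nb E v) (rk σ) hv
      exact ⟨z, fun _ => ⟨hz, h⟩⟩
    · exact ⟨0, fun h => absurd h hv⟩
  choose l hl using h1
  have h2 : ∀ σ : Z ≃ Fin Z.card, ∃ L : ℕ → A, ∑ e ∈ E, ∑ v' ∈ nR E e.1,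
      (if π e (X (l σ v') e.1) = π (l σ e.2, e.2) (a (l σ e.2)) then
        1 / ((nR E e.1).card : ℝ) else 0) ≤
      numE π E L (fun v => π (l σ v, v) (a (l σ v))) := fun σ =>
    one_order π X (l σ) fun v => π (l σ v, v) (a (l σ v))
  choose L hL using h2
  -- the average
  set N := Fintype.card (Z ≃ Fin Z.card) with hN
  have hNpos : 0 < N := by
    rw [hN, Fintype.card_pos_iff]
    exact ⟨Z.equivFin⟩
  have hNr : (0 : ℝ) < N := by exact_mod_cast hNpos
  have key : (N : ℝ) * T π E a X ≤ ∑ σ : Z ≃ Fin Z.card, ∑ e ∈ E, ∑ v' ∈ nR E e.1,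
      (if π e (X (l σ v') e.1) = π (l σ e.2, e.2) (a (l σ e.2)) then
        1 / ((nR E e.1).card : ℝ) else 0) := by
    rw [sum_comm]
    unfold T
    rw [mul_sum]
    refine sum_le_sum fun e he => ?_
    rw [sum_comm]
    -- exchange the sums over `f` and `v'`
    have h3 : ∑ f ∈ E.filter (fun f => f.2 = e.2),
        (if π e (X f.1 e.1) = π f (a f.1) then om E e f else 0) =
        ∑ v' ∈ nR E e.1, ∑ f ∈ E.filter (fun f => f.2 = e.2),
          (if π e (X f.1 e.1) = π f (a f.1) ∧ v' ∈ nR E f.1 then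
            1 / (((nR E e.1).card : ℝ) * ((nb E e.2 ∪ nb E v').card : ℝ)) else 0) := by
      rw [sum_comm]
      refine sum_congr rfl fun f _ => ?_
      by_cases h : π e (X f.1 e.1) = π f (a f.1)
      · simp only [h, true_and, if_true]
        unfold om
        rw [← sum_filter, filter_mem_eq_inter]
      · simp only [h, false_and, if_false, sum_const_zero]
    rw [h3, mul_sum]
    refine sum_le_sum fun v' hv' => ?_
    have hev' : e.1 ∈ nb E v' := mem_nb.2 (mem_nR.1 hv')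
    have hee : e.1 ∈ nb E e.2 := mem_nb.2 he
    -- every order has at most one pair of leaders
    have h4 : ∀ σ : Z ≃ Fin Z.card, ∑ f ∈ E.filter (fun f => f.2 = e.2),
        (if (π e (X f.1 e.1) = π f (a f.1) ∧ v' ∈ nR E f.1) ∧
          (∀ y ∈ nb E e.2 ∪ nb E v', rk σ f.1 ≤ rk σ y) then 1 / ((nR E e.1).card : ℝ) else 0) ≤
        if π e (X (l σ v') e.1) = π (l σ e.2, e.2) (a (l σ e.2)) then
          1 / ((nR E e.1).card : ℝ) else 0 := by
      intro σ
      have hpos : (0 : ℝ) ≤ 1 / ((nR E e.1).card : ℝ) := by positivity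
      have h5 : ∀ f ∈ E.filter (fun f => f.2 = e.2), (π e (X f.1 e.1) = π f (a f.1) ∧
          v' ∈ nR E f.1) ∧ (∀ y ∈ nb E e.2 ∪ nb E v', rk σ f.1 ≤ rk σ y) →
          f = (l σ e.2, e.2) ∧
            π e (X (l σ v') e.1) = π (l σ e.2, e.2) (a (l σ e.2)) := by
        rintro f hf ⟨⟨h6, h7⟩, h8⟩
        obtain ⟨hf1, hf2⟩ := mem_filter.1 hf
        have hfe : f.1 ∈ nb E e.2 := mem_nb.2 (by rw [← hf2]; exact hf1)
        have hfv' : f.1 ∈ nb E v' := mem_nb.2 (mem_nR.1 h7)
        obtain ⟨h9, h10⟩ := hl σ e.2 ⟨_, hee⟩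
        obtain ⟨h11, h12⟩ := hl σ v' ⟨_, hev'⟩
        have h13 : f.1 = l σ e.2 := rk_inj σ (hnbZ _ hfe) (hnbZ _ h9)
          (le_antisymm (h8 _ (mem_union_left _ h9)) (h10 _ hfe))
        have h14 : f.1 = l σ v' := rk_inj σ (hnbZ _ hfv') (hnbZ _ h11)
          (le_antisymm (h8 _ (mem_union_right _ h11)) (h12 _ hfv'))
        have h15 : f = (l σ e.2, e.2) := Prod.ext h13 hf2
        refine ⟨h15, ?_⟩
        rw [← h14, ← h15, ← h13]
        exact h6
      by_cases h6 : ∃ f ∈ E.filter (fun f => f.2 = e.2), (π e (X f.1 e.1) = π f (a f.1) ∧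
          v' ∈ nR E f.1) ∧ (∀ y ∈ nb E e.2 ∪ nb E v', rk σ f.1 ≤ rk σ y)
      · obtain ⟨f, hf, hf'⟩ := h6
        obtain ⟨h7, h8⟩ := h5 f hf hf'
        rw [if_pos h8, sum_eq_single f]
        · rw [if_pos hf']
        · intro f' hf1 hne
          rw [if_neg]
          intro h9
          exact hne ((h5 f' hf1 h9).1.trans h7.symm)
        · intro h9; exact absurd hf h9
      · rw [sum_eq_zero]
        · split_ifs
          · exact hpos
          · exact le_rfl
        · intro f hf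
          rw [if_neg]
          intro h7
          exact h6 ⟨f, hf, h7⟩
    refine le_trans ?_ (sum_le_sum fun σ _ => h4 σ)
    rw [sum_comm, mul_sum]
    refine sum_le_sum fun f hf => ?_
    obtain ⟨hf1, hf2⟩ := mem_filter.1 hf
    by_cases h6 : π e (X f.1 e.1) = π f (a f.1) ∧ v' ∈ nR E f.1
    · rw [if_pos h6]
      simp only [h6, true_and]
      have hfe : f.1 ∈ nb E e.2 := mem_nb.2 (by rw [← hf2]; exact hf1)
      have h7 := card_rank (Z := Z) (n := Z.card) (A := nb E e.2 ∪ nb E v')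
        (union_subset (hnbZ _) (hnbZ _)) (z := f.1) (mem_union_left _ hfe)
      rw [← sum_filter, sum_const, nsmul_eq_mul]
      have hU : (0 : ℝ) < (nb E e.2 ∪ nb E v').card := by
        exact_mod_cast card_pos.2 ⟨_, mem_union_left _ hfe⟩
      have hd : (0 : ℝ) < (nR E e.1).card := by
        exact_mod_cast card_pos.2 ⟨e.2, mem_nR.2 he⟩
      have h8 : ((univ.filter fun σ : Z ≃ Fin Z.card =>
          ∀ y ∈ nb E e.2 ∪ nb E v', rk σ f.1 ≤ rk σ y).card : ℝ) *
          ((nb E e.2 ∪ nb E v').card : ℝ) = N := by exact_mod_cast h7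
      rw [← h8]
      apply le_of_eq
      field_simp
    · rw [if_neg h6, mul_zero]
      exact sum_nonneg fun σ _ => by split_ifs <;> positivity
  obtain ⟨σ, _, hσ⟩ := exists_le_of_sum_le (s := (univ : Finset (Z ≃ Fin Z.card)))
    (f := fun _ => T π E a X)
    (g := fun σ => (numE π E (L σ) (fun v => π (l σ v, v) (a (l σ v))) : ℝ))
    ⟨Z.equivFin, mem_univ _⟩ (by
      rw [sum_const, nsmul_eq_mul, card_univ]
      exact key.trans (sum_le_sum fun σ _ => hL σ))
  exact ⟨L σ, _, hσ⟩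

end Pool.Agent.H697.CL
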