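import Pool.Agent.H697.CL.Forest
import Pool.Agent.H697.LF.UGLift

/-!
# Games on sparse graphs are clustered
-/

namespace Pool.Agent.H697.CL

open Finset Pool.Agent.NPC Pool.Agent.H697.LF
open Pool.Agent.H697.UG (Game Edge Simple edges mem_edges card_edges)

theorem image_fst (J : Game) : (edges J).image Prod.fst = lefts J := by
  ext u
  unfold lefts edges
  simp only [mem_image, List.mem_toFinset, List.mem_map]
  constructor
  · rintro ⟨p, ⟨e, he, rfl⟩, rfl⟩
    exact ⟨e, he, rfl⟩
  · rintro ⟨e, he, rfl⟩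
    exact ⟨e.1, ⟨e, he, rfl⟩, rfl⟩

theorem image_snd (J : Game) : (edges J).image Prod.snd = rights J := by
  ext u
  unfold rights edges
  simp only [mem_image, List.mem_toFinset, List.mem_map]
  constructor
  · rintro ⟨p, ⟨e, he, rfl⟩, rfl⟩
    exact ⟨e, he, rfl⟩
  · rintro ⟨e, he, rfl⟩
    exact ⟨e.1, ⟨e, he, rfl⟩, rfl⟩

/-- Games on sparse graphs are clustered. -/
theorem clustered_of_sparse {C : GraphClass} {D : ℕ} (hD : 0 < D) (hC : Sparse C D) {J : Game}
    (hne : J ≠ []) (hJ : On C J) : Clustered (1 / (8 * (D : ℝ) ^ 2)) J := by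
  refine ⟨hJ.1, ?_⟩
  have hlen := hC.length_le hJ
  have h1 := clus_ge_left hne
  have h2 := clus_ge_right hne
  rw [image_fst] at h1
  rw [image_snd] at h2
  have hE : ((edges J).card : ℝ) = J.length := by exact_mod_cast card_edges hJ.1
  rw [hE] at h1 h2
  have hDr : (1 : ℝ) ≤ D := by exact_mod_cast hD
  have hm : (0 : ℝ) < J.length := by exact_mod_cast List.length_pos_iff.2 hne
  have h3 : (J.length : ℝ) ≤ D * ((lefts J).card + (rights J).card) := by exact_mod_cast hlen
  have hpos : (0 : ℝ) < 8 * (D : ℝ) ^ 2 := by positivity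
  rw [div_le_iff₀ hpos]
  rcases le_total ((rights J).card : ℝ) ((lefts J).card : ℝ) with h | h
  · -- many left vertices
    have h4 : (J.length : ℝ) ≤ 2 * D * (clus J * J.length) := by nlinarith
    have h5 : (1 : ℝ) * J.length ≤ (2 * D * clus J) * J.length := by linarith
    have h6 := le_of_mul_le_mul_right h5 hm
    have h7 : 0 ≤ clus J := by
      by_contra hc
      push Not at hc
      nlinarith
    nlinarith
  · have h4 : (J.length : ℝ) ≤ 2 * D * (rights J).card := by nlinarith
    have h5 : (J.length : ℝ) ^ 2 ≤ (2 * D * (rights J).card) ^ 2 := by gcongr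
    have h6 : (1 : ℝ) * (J.length : ℝ) ^ 2 ≤ (clus J * (8 * (D : ℝ) ^ 2)) * (J.length : ℝ) ^ 2 := by
      calc (1 : ℝ) * (J.length : ℝ) ^ 2 ≤ (2 * D * (rights J).card) ^ 2 := by linarith
        _ = 4 * (D : ℝ) ^ 2 * ((rights J).card : ℝ) ^ 2 := by ring
        _ ≤ 4 * (D : ℝ) ^ 2 * (2 * clus J * (J.length : ℝ) ^ 2) := by gcongr
        _ = _ := by ring
    exact le_of_mul_le_mul_right h6 (by positivity)

end Pool.Agent.H697.CL
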