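import Pool.Agent.H697.CL.Pad
import Pool.Agent.H697.RT.LCHard

/-!
# Games all of whose left degrees are `r`
-/

namespace Pool.Agent.H697.CL

set_option linter.unusedSectionVars false

open Finset Pool.Agent.NPC
open Pool.Agent.H697.UG (Game Edge Simple edges mem_edges card_edges degL degR)

/-- The game is simple and all left vertices have the degree `r`. -/
def LeftReg (r : ℕ) (J : Game) : Prop := Simple J ∧ ∀ e ∈ J, degL J e.1.1 = r

/-! ### Sums over tuples -/

section
variable {r D : ℕ}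

theorem sum_prod (w : Fin r → Fin D → ℕ) :
    ∑ f : Fin r → Fin D, ∏ k, w k (f k) = ∏ k, ∑ b, w k b := by
  rw [Finset.prod_univ_sum, Fintype.piFinset_univ]

theorem sum_coord (φ : Fin D → ℕ) (i : Fin r) :
    D * ∑ f : Fin r → Fin D, φ (f i) = D ^ r * ∑ b, φ b := by
  have h1 := sum_prod (fun (k : Fin r) (b : Fin D) => if k = i then φ b else 1)
  have h2 : ∀ f : Fin r → Fin D, ∏ k, (if k = i then φ (f k) else 1) = φ (f i) := fun f => by
    rw [prod_ite_eq' univ i fun k => φ (f k), if_pos (mem_univ _)]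
  simp only [h2] at h1
  have h3 : ∏ k ∈ univ.erase i, ∑ b : Fin D, (if k = i then φ b else 1) = D ^ (r - 1) := by
    rw [prod_congr rfl fun k hk => show ∑ b : Fin D, (if k = i then φ b else 1) = D from ?_,
      prod_const, card_erase_of_mem (mem_univ i), card_univ, Fintype.card_fin]
    rw [sum_congr rfl fun b _ => if_neg (ne_of_mem_erase hk)]
    simp
  have hr : D ^ r = D * D ^ (r - 1) := by
    rw [← pow_succ']
    congr 1
    have := i.2
    omega
  rw [h1, ← mul_prod_erase univ _ (mem_univ i), h3, hr, sum_congr rfl fun b _ => if_pos rfl]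
  ring

theorem sum_coord2 (φ ψ : Fin D → ℕ) {i j : Fin r} (hij : i ≠ j) :
    D * D * ∑ f : Fin r → Fin D, φ (f i) * ψ (f j) = D ^ r * ((∑ b, φ b) * ∑ b, ψ b) := by
  have h1 := sum_prod (fun (k : Fin r) (b : Fin D) => if k = i then φ b else if k = j then ψ b
    else 1)
  have h2 : ∀ f : Fin r → Fin D, ∏ k, (if k = i then φ (f k) else if k = j then ψ (f k) else 1) =
      φ (f i) * ψ (f j) := fun f => by
    rw [prod_eq_mul i j hij (fun c _ hc => by rw [if_neg hc.1, if_neg hc.2])
      (fun h => absurd (mem_univ _) h) (fun h => absurd (mem_univ _) h), if_pos rfl,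
      if_neg hij.symm, if_pos rfl]
  simp only [h2] at h1
  have hj : j ∈ univ.erase i := mem_erase.2 ⟨hij.symm, mem_univ _⟩
  have h3 : ∏ k ∈ (univ.erase i).erase j, ∑ b : Fin D,
      (if k = i then φ b else if k = j then ψ b else 1) = D ^ (r - 2) := by
    rw [prod_congr rfl fun k hk => show ∑ b : Fin D,
      (if k = i then φ b else if k = j then ψ b else 1) = D from ?_,
      prod_const, card_erase_of_mem hj, card_erase_of_mem (mem_univ i), card_univ,
      Fintype.card_fin, Nat.sub_sub]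
    rw [sum_congr rfl fun b _ => by
      rw [if_neg (ne_of_mem_erase (mem_of_mem_erase hk)), if_neg (ne_of_mem_erase hk)]]
    simp
  have hr : D ^ r = D * D * D ^ (r - 2) := by
    rw [mul_assoc, ← pow_succ', ← pow_succ']
    congr 1
    have h4 := i.2
    have h5 := j.2
    have h6 : (i : ℕ) ≠ j := fun h => hij (Fin.ext h)
    omega
  have e1 : ∑ b : Fin D, (if i = i then φ b else if i = j then ψ b else 1) = ∑ b, φ b :=
    sum_congr rfl fun b _ => if_pos rfl
  have e2 : ∑ b : Fin D, (if j = i then φ b else if j = j then ψ b else 1) = ∑ b, ψ b :=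
    sum_congr rfl fun b _ => by rw [if_neg hij.symm, if_pos rfl]
  rw [h1, ← mul_prod_erase univ _ (mem_univ i), ← mul_prod_erase (univ.erase i) _ hj, h3, hr,
    e1, e2]
  ring

/-- Zeros and ones: their number is at most one more than the number of pairs. -/
theorem le_pairs (s : Fin r → ℕ) (hs : ∀ i, s i ≤ 1) :
    ∑ i, s i ≤ 1 + ∑ i, ∑ j ∈ univ.erase i, s i * s j := by
  by_cases h : ∃ i, s i = 1
  · obtain ⟨i, hi⟩ := h
    rw [← add_sum_erase univ s (mem_univ i), hi]
    refine Nat.add_le_add_left ?_ 1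
    refine le_trans (le_of_eq ?_) (single_le_sum (f := fun i => ∑ j ∈ univ.erase i, s i * s j)
      (fun _ _ => Nat.zero_le _) (mem_univ i))
    rw [hi]
    simp
  · push Not at h
    have h1 : ∀ i, s i = 0 := fun i => by
      have h2 := hs i
      have h3 := h i
      omega
    simp [h1]

theorem sum_digits (F : ℕ → (ℕ → ℕ) → ℕ) :
    ∑ x ∈ range (D ^ r), F x (fun i => x / D ^ i % D) =
      ∑ f : Fin r → Fin D, F (finFunctionFinEquiv f) (fun i =>
        (finFunctionFinEquiv f : ℕ) / D ^ i % D) := by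
  rw [← Fin.sum_univ_eq_sum_range (fun x => F x (fun i => x / D ^ i % D))]
  exact (Equiv.sum_comp finFunctionFinEquiv fun x : Fin (D ^ r) =>
    F x (fun i => (x : ℕ) / D ^ i % D)).symm

theorem digit (f : Fin r → Fin D) (i : Fin r) :
    (finFunctionFinEquiv f : ℕ) / D ^ (i : ℕ) % D = f i := by
  have h := congrFun (finFunctionFinEquiv.symm_apply_apply f) i
  exact congrArg Fin.val h

end

/-! ### Sums over the edges -/

theorem sum_range_getD (l : List Edge) (φ : Edge → ℕ) :
    ∑ b ∈ range l.length, φ (l.getD b ((0, 0), [])) = (l.map φ).sum := by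
  induction l with
  | nil => simp
  | cons e l ih =>
    rw [List.length_cons, sum_range_succ', List.map_cons, List.sum_cons, ← ih, add_comm]
    rfl

theorem sum_filter_list (l : List Edge) (p : Edge → Bool) (φ : Edge → ℕ) :
    ((l.filter p).map φ).sum = (l.map fun e => if p e = true then φ e else 0).sum := by
  induction l with
  | nil => simp
  | cons e l ih =>
    rw [List.filter_cons, List.map_cons, List.sum_cons, ← ih]
    split_ifs <;> simp

/-- The edges at the left vertex `u`. -/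
def atL (J : Game) (u : ℕ) : Game := J.filter fun e => decide (e.1.1 = u)

/-- The edge number `b` at the left end of the edge number `k`. -/
def eb (J : Game) (k b : ℕ) : Edge := (atL J (J.getD k ((0, 0), [])).1.1).getD b ((0, 0), [])

theorem length_atL (J : Game) (u : ℕ) : (atL J u).length = degL J u := rfl

theorem getD_mem {J : Game} {k : ℕ} (hk : k < J.length) : J.getD k ((0, 0), []) ∈ J := by
  rw [List.getD_eq_getElem _ _ hk]
  exact List.getElem_mem hk

section
variable {D : ℕ} {J : Game} (hreg : ∀ e ∈ J, degL J e.1.1 = D)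
include hreg

theorem eb_mem {k b : ℕ} (hk : k < J.length) (hb : b < D) :
    eb J k b ∈ J ∧ (eb J k b).1.1 = (J.getD k ((0, 0), [])).1.1 := by
  have h1 : b < (atL J (J.getD k ((0, 0), [])).1.1).length := by
    rw [length_atL, hreg _ (getD_mem hk)]
    exact hb
  have h2 := getD_mem h1
  unfold atL at h2
  rw [List.mem_filter, decide_eq_true_eq] at h2
  exact h2

theorem sum_eb {k : ℕ} (hk : k < J.length) (φ : Edge → ℕ) :
    ∑ b ∈ range D, φ (eb J k b) = (J.map fun e =>
      if e.1.1 = (J.getD k ((0, 0), [])).1.1 then φ e else 0).sum := by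
  have h1 := sum_range_getD (atL J (J.getD k ((0, 0), [])).1.1) φ
  rw [length_atL, hreg _ (getD_mem hk)] at h1
  unfold eb
  rw [h1]
  unfold atL
  rw [sum_filter_list]
  simp only [decide_eq_true_eq]

/-- Double counting. -/
theorem sum_sum_eb (φ : Edge → ℕ) :
    ∑ k ∈ range J.length, ∑ b ∈ range D, φ (eb J k b) = D * (J.map φ).sum := by
  rw [sum_congr rfl fun k hk => sum_eb hreg (mem_range.1 hk) φ]
  have h1 : ∀ k, (J.map fun e => if e.1.1 = (J.getD k ((0, 0), [])).1.1 then φ e else 0).sum =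
      ∑ k' ∈ range J.length, if (J.getD k' ((0, 0), [])).1.1 = (J.getD k ((0, 0), [])).1.1
        then φ (J.getD k' ((0, 0), [])) else 0 := fun k => by
    rw [← sum_range_getD]
  rw [sum_congr rfl fun k _ => h1 k, sum_comm, ← sum_range_getD, mul_sum]
  refine sum_congr rfl fun k' hk' => ?_
  have h2 : ∀ k, (if (J.getD k' ((0, 0), [])).1.1 = (J.getD k ((0, 0), [])).1.1
      then φ (J.getD k' ((0, 0), [])) else 0) = φ (J.getD k' ((0, 0), [])) *
      (if (J.getD k ((0, 0), [])).1.1 = (J.getD k' ((0, 0), [])).1.1 then 1 else 0) := fun k => by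
    by_cases h : (J.getD k' ((0, 0), [])).1.1 = (J.getD k ((0, 0), [])).1.1
    · rw [if_pos h, if_pos h.symm, mul_one]
    · rw [if_neg h, if_neg fun h' => h h'.symm, mul_zero]
  rw [sum_congr rfl fun k _ => h2 k, ← mul_sum, mul_comm]
  congr 1
  have h3 := sum_range_getD J fun e =>
    if e.1.1 = (J.getD k' ((0, 0), [])).1.1 then 1 else 0
  rw [h3, ← hreg _ (getD_mem (mem_range.1 hk'))]
  have h4 := sum_filter_list J (fun e => decide (e.1.1 = (J.getD k' ((0, 0), [])).1.1))
    fun _ => 1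
  simp only [decide_eq_true_eq] at h4
  rw [← h4, List.map_const', List.sum_replicate, smul_eq_mul, mul_one]
  rfl

end

/-! ### The game -/

/-- The places of the digits. -/
def cs (r D : ℕ) : List (ℕ × ℕ) := (List.range r).map fun i => (i, D ^ i)

/-- One edge. -/
def te (r D : ℕ) (J : Game) (k x : ℕ) (c : ℕ × ℕ) : Edge :=
  ((D ^ r * k + x, r * (eb J k (x / c.2 % D)).1.2 + c.1), (eb J k (x / c.2 % D)).2)

/-- The left vertices are the edges together with a tuple of `r` neighbours of their left end; the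
right vertices are the right vertices with a number below `r`. -/
def tup (r D : ℕ) (J : Game) : Game :=
  (List.range J.length).flatMap fun k => (List.range (D ^ r)).flatMap fun x =>
    (cs r D).map (te r D J k x)

theorem poly_eb {α : Type} [TEnc α] {J : α → Game} {k b : α → ℕ} (hJ : Poly J) (hk : Poly k)
    (hb : Poly b) : Poly (fun a => eb (J a) (k a) (b a)) := by
  unfold eb atL
  refine Poly.getD (Poly.filter (p := fun a (e : Edge) =>
    decide (e.1.1 = ((J a).getD (k a) ((0, 0), [])).1.1)) hJ ?_) hb (NPC.Poly.const _)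
  have f : Poly (fun p : α × Edge => p.1) := Poly.fst Poly.id
  exact Poly.decide_eq (Poly.fst (Poly.fst (Poly.snd Poly.id)))
    (Poly.fst (Poly.fst (Poly.getD (hJ.comp f) (hk.comp f) (NPC.Poly.const _))))

theorem poly_te {α : Type} [TEnc α] (r D : ℕ) {J : α → Game} {k x : α → ℕ} {c : α → ℕ × ℕ}
    (hJ : Poly J) (hk : Poly k) (hx : Poly x) (hc : Poly c) :
    Poly (fun a => te r D (J a) (k a) (x a) (c a)) := by
  unfold te
  have hc1 : Poly (fun a => (c a).1) := Poly.fst hc
  have hc2 : Poly (fun a => (c a).2) := Poly.snd hc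
  have hb : Poly (fun a => x a / (c a).2 % D) := Poly.mod (Poly.div hx hc2) (NPC.Poly.const D)
  have he : Poly (fun a => eb (J a) (k a) (x a / (c a).2 % D)) := poly_eb hJ hk hb
  have hl : Poly (fun a => D ^ r * k a + x a) :=
    Poly.add (Poly.mul (NPC.Poly.const (D ^ r)) hk) hx
  have hr : Poly (fun a => r * (eb (J a) (k a) (x a / (c a).2 % D)).1.2 + (c a).1) :=
    Poly.add (Poly.mul (NPC.Poly.const r) (Poly.snd (Poly.fst he))) hc1
  exact Poly.pair (Poly.pair hl hr) (Poly.snd he)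

theorem poly_in2 {α : Type} [TEnc α] (r D : ℕ) {J : α → Game} {k x : α → ℕ}
    (hJ : Poly J) (hk : Poly k) (hx : Poly x) :
    Poly (fun a => (cs r D).map (te r D (J a) (k a) (x a))) := by
  have f : Poly (fun p : α × (ℕ × ℕ) => p.1) := Poly.fst Poly.id
  exact NPC.Poly.map (F := fun a (c : ℕ × ℕ) => te r D (J a) (k a) (x a) c)
    (NPC.Poly.const (cs r D)) (poly_te r D (hJ.comp f) (hk.comp f) (hx.comp f) (Poly.snd Poly.id))

theorem poly_in1 {α : Type} [TEnc α] (r D : ℕ) {J : α → Game} {k : α → ℕ}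
    (hJ : Poly J) (hk : Poly k) :
    Poly (fun a => (List.range (D ^ r)).flatMap fun x => (cs r D).map (te r D (J a) (k a) x)) := by
  have f : Poly (fun p : α × ℕ => p.1) := Poly.fst Poly.id
  exact Poly.flatMap (F := fun a x => (cs r D).map (te r D (J a) (k a) x))
    (NPC.Poly.const (List.range (D ^ r)))
    (poly_in2 r D (hJ.comp f) (hk.comp f) (Poly.snd Poly.id))

theorem poly_tup (r D : ℕ) : Poly (tup r D) := by
  unfold tup
  exact Poly.flatMap (F := fun (J : Game) k => (List.range (D ^ r)).flatMap fun x =>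
    (cs r D).map (te r D J k x)) (UPoly.range (UPoly.length Poly.id))
    (poly_in1 r D (Poly.fst Poly.id) (Poly.snd Poly.id))

theorem length_tup (r D : ℕ) (J : Game) : (tup r D J).length = J.length * (D ^ r * r) := by
  unfold tup cs
  rw [List.length_flatMap]
  simp only [List.length_flatMap, List.length_map, List.length_range, List.map_const',
    List.sum_replicate, smul_eq_mul]

theorem mem_tup {r D : ℕ} {J : Game} {e : Edge} (h : e ∈ tup r D J) : ∃ k < J.length,
    ∃ x < D ^ r, ∃ i < r, e = ((D ^ r * k + x, r * (eb J k (x / D ^ i % D)).1.2 + i),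
      (eb J k (x / D ^ i % D)).2) := by
  unfold tup cs at h
  rw [List.mem_flatMap] at h
  obtain ⟨k, hk, h⟩ := h
  rw [List.mem_flatMap] at h
  obtain ⟨x, hx, h⟩ := h
  rw [List.mem_map] at h
  obtain ⟨c, hc, rfl⟩ := h
  rw [List.mem_map] at hc
  obtain ⟨i, hi, rfl⟩ := hc
  exact ⟨k, List.mem_range.1 hk, x, List.mem_range.1 hx, i, List.mem_range.1 hi, rfl⟩

theorem tup_mem {r D : ℕ} {J : Game} {k x i : ℕ} (hk : k < J.length) (hx : x < D ^ r)
    (hi : i < r) : ((D ^ r * k + x, r * (eb J k (x / D ^ i % D)).1.2 + i),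
      (eb J k (x / D ^ i % D)).2) ∈ tup r D J := by
  unfold tup cs
  rw [List.mem_flatMap]
  refine ⟨k, List.mem_range.2 hk, ?_⟩
  rw [List.mem_flatMap]
  refine ⟨x, List.mem_range.2 hx, ?_⟩
  rw [List.mem_map]
  refine ⟨(i, D ^ i), ?_, rfl⟩
  rw [List.mem_map]
  exact ⟨i, List.mem_range.2 hi, rfl⟩

theorem mod_eq {r a b i j : ℕ} (hi : i < r) (hj : j < r) (h : r * a + i = r * b + j) :
    i = j ∧ a = b := by
  have h1 : (r * a + i) % r = (r * b + j) % r := by rw [h]
  rw [Nat.mul_add_mod, Nat.mul_add_mod, Nat.mod_eq_of_lt hi, Nat.mod_eq_of_lt hj] at h1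
  subst h1
  refine ⟨rfl, Nat.eq_of_mul_eq_mul_left (by omega : 0 < r) (by omega)⟩

theorem simple_tup (r D : ℕ) (J : Game) : Simple (tup r D J) := by
  unfold Simple tup cs
  rw [List.map_flatMap, List.nodup_flatMap]
  constructor
  · intro k _
    rw [List.map_flatMap, List.nodup_flatMap]
    constructor
    · intro x _
      rw [List.map_map, List.map_map]
      refine List.Nodup.map_on ?_ List.nodup_range
      intro i hi j hj h
      simp only [Function.comp, te, Prod.mk.injEq] at h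
      exact (mod_eq (List.mem_range.1 hi) (List.mem_range.1 hj) h.2).1
    · refine List.Nodup.pairwise_of_forall_ne List.nodup_range ?_
      intro x hx y hy hne
      rw [Function.onFun, List.disjoint_left]
      intro p hp hp'
      rw [List.mem_map] at hp hp'
      obtain ⟨e, he, rfl⟩ := hp
      obtain ⟨e', he', h⟩ := hp'
      rw [List.mem_map] at he he'
      obtain ⟨c, _, rfl⟩ := he
      obtain ⟨c', _, rfl⟩ := he'
      simp only [te, Prod.mk.injEq] at h
      omega
  · refine List.Nodup.pairwise_of_forall_ne List.nodup_range ?_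
    intro k hk k' hk' hne
    rw [Function.onFun, List.disjoint_left]
    intro p hp hp'
    rw [List.mem_map] at hp hp'
    obtain ⟨e, he, rfl⟩ := hp
    obtain ⟨e', he', h⟩ := hp'
    rw [List.mem_flatMap] at he he'
    obtain ⟨x, hx, he⟩ := he
    obtain ⟨x', hx', he'⟩ := he'
    rw [List.mem_map] at he he'
    obtain ⟨c, _, rfl⟩ := he
    obtain ⟨c', _, rfl⟩ := he'
    simp only [te, Prod.mk.injEq] at h
    exact hne (mod_eq (List.mem_range.1 hx') (List.mem_range.1 hx) h.1).2.symm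

theorem leftReg_tup (r D : ℕ) (J : Game) : LeftReg r (tup r D J) := by
  refine ⟨simple_tup r D J, fun e he => ?_⟩
  obtain ⟨k, hk, x, hx, i, hi, rfl⟩ := mem_tup he
  rw [degL_eq (simple_tup r D J)]
  have h1 : nR (edges (tup r D J)) (D ^ r * k + x) = (range r).image fun j =>
      r * (eb J k (x / D ^ j % D)).1.2 + j := by
    ext v
    rw [mem_nR, mem_edges, mem_image]
    constructor
    · rintro ⟨e', he', h⟩
      obtain ⟨k', hk', x', hx', j, hj, rfl⟩ := mem_tup he'
      simp only [Prod.mk.injEq] at h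
      obtain ⟨h2, h3⟩ := mod_eq hx' hx h.1
      subst h2 h3
      exact ⟨j, mem_range.2 hj, h.2⟩
    · rintro ⟨j, hj, rfl⟩
      exact ⟨_, tup_mem hk hx (mem_range.1 hj), rfl⟩
  dsimp only
  rw [h1, card_image_of_injOn, card_range]
  intro j hj j' hj' h
  exact (mod_eq (mem_range.1 (mem_coe.1 hj)) (mem_range.1 (mem_coe.1 hj')) h).1

/-! ### The value -/

open Pool.Agent.H697.LC

/-- One if the label `a` of the left end satisfies the edge, where the right vertices `v` have the
labels `M v`. -/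
def ind {q₁ q₂ : ℕ} (M : ℕ → Fin q₂) (a : Fin q₁) (e : Edge) : ℕ :=
  if e.2[(a : ℕ)]? = some (M e.1.2 : ℕ) then 1 else 0

theorem ind_le {q₁ q₂ : ℕ} (M : ℕ → Fin q₂) (a : Fin q₁) (e : Edge) : ind M a e ≤ 1 := by
  unfold ind
  split_ifs <;> omega

theorem numSat_flatMap {q₁ q₂ : ℕ} {α : Type} (l : List α) (F : α → Game) (L : ℕ → Fin q₁)
    (M : ℕ → Fin q₂) : numSat (l.flatMap F) L M = (l.map fun a => numSat (F a) L M).sum := by
  unfold numSat
  rw [List.filter_flatMap, List.length_flatMap]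

theorem numSat_map {q₁ q₂ : ℕ} {α : Type} (l : List α) (F : α → Edge) (L : ℕ → Fin q₁)
    (M : ℕ → Fin q₂) : numSat (l.map F) L M = (l.map fun a => ind M (L (F a).1.1) (F a)).sum := by
  unfold numSat
  induction l with
  | nil => rfl
  | cons a l ih =>
    rw [List.map_cons, List.filter_cons, List.map_cons, List.sum_cons, ← ih]
    unfold ind
    by_cases h : Sat L M (F a)
    · rw [if_pos (decide_eq_true h), List.length_cons, add_comm]
      congr 1
      unfold Sat at h
      rw [if_pos h]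
    · rw [if_neg (by simpa using h)]
      unfold Sat at h
      rw [if_neg h, zero_add]

theorem numSat_eq {q₁ q₂ : ℕ} (J : Game) (L : ℕ → Fin q₁) (M : ℕ → Fin q₂) :
    numSat J L M = (J.map fun e => ind M (L e.1.1) e).sum := by
  have h := numSat_map J id L M
  rw [List.map_id] at h
  exact h

/-- The number of satisfied edges. -/
theorem numSat_tup {q₁ q₂ : ℕ} (r D : ℕ) (J : Game) (L : ℕ → Fin q₁) (M : ℕ → Fin q₂) :
    numSat (tup r D J) L M = ∑ k ∈ range J.length, ∑ f : Fin r → Fin D, ∑ i : Fin r,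
      ind (fun v => M (r * v + i)) (L (D ^ r * k + (finFunctionFinEquiv f : ℕ)))
        (eb J k (f i)) := by
  unfold tup
  rw [numSat_flatMap, list_sum_range]
  refine sum_congr rfl fun k _ => ?_
  rw [numSat_flatMap, list_sum_range]
  have h1 : ∀ x, numSat ((cs r D).map (te r D J k x)) L M = ∑ i ∈ range r,
      ind (fun v => M (r * v + i)) (L (D ^ r * k + x)) (eb J k (x / D ^ i % D)) := by
    intro x
    rw [numSat_map]
    unfold cs
    rw [List.map_map, list_sum_range]
    rfl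
  rw [sum_congr rfl fun x _ => h1 x]
  have h2 := sum_digits (r := r) (D := D) fun x g => ∑ i ∈ range r,
      ind (fun v => M (r * v + i)) (L (D ^ r * k + x)) (eb J k (g i))
  dsimp only at h2
  rw [h2]
  refine sum_congr rfl fun f _ => ?_
  rw [← Fin.sum_univ_eq_sum_range (fun i => ind (fun v => M (r * v + i))
    (L (D ^ r * k + (finFunctionFinEquiv f : ℕ)))
    (eb J k ((finFunctionFinEquiv f : ℕ) / D ^ i % D)))]
  refine sum_congr rfl fun i _ => ?_
  rw [digit]

section
variable {r D : ℕ} {J : Game} (hD : 0 < D) (hreg : ∀ e ∈ J, degL J e.1.1 = D)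
include hD hreg

/-- Completeness. -/
theorem complete_tup (hr : 0 < r) {q₁ q₂ : ℕ} (L : ℕ → Fin q₁) (M : ℕ → Fin q₂) :
    ∃ (L' : ℕ → Fin q₁) (M' : ℕ → Fin q₂),
      numSat (tup r D J) L' M' = D ^ r * r * numSat J L M := by
  have hDr : 0 < D ^ r := Nat.pow_pos hD
  refine ⟨fun w => L (J.getD (w / D ^ r) ((0, 0), [])).1.1, fun v => M (v / r), ?_⟩
  rw [numSat_tup]
  have h1 : ∀ k ∈ range J.length, ∀ f : Fin r → Fin D, ∀ i : Fin r,
      ind (fun v => M ((r * v + i) / r)) (L (J.getD ((D ^ r * k +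
        (finFunctionFinEquiv f : ℕ)) / D ^ r) ((0, 0), [])).1.1) (eb J k (f i)) =
      ind M (L (eb J k (f i)).1.1) (eb J k (f i)) := by
    intro k hk f i
    have h2 : (D ^ r * k + (finFunctionFinEquiv f : ℕ)) / D ^ r = k := by
      rw [Nat.mul_add_div hDr, Nat.div_eq_of_lt (finFunctionFinEquiv f).2, add_zero]
    have h3 : (fun v => M ((r * v + i) / r)) = M := by
      funext v
      rw [Nat.mul_add_div hr, Nat.div_eq_of_lt i.2, add_zero]
    rw [h2, h3, ← (eb_mem hreg (mem_range.1 hk) (f i).2).2]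
  rw [sum_congr rfl fun k hk => sum_congr rfl fun f _ => sum_congr rfl fun i _ => h1 k hk f i]
  refine Nat.eq_of_mul_eq_mul_left hD ?_
  rw [mul_sum]
  have h4 : ∀ k, D * ∑ f : Fin r → Fin D, ∑ i : Fin r,
      ind M (L (eb J k (f i)).1.1) (eb J k (f i)) =
      D ^ r * (r * ∑ b ∈ range D, ind M (L (eb J k b).1.1) (eb J k b)) := by
    intro k
    rw [sum_comm, mul_sum, sum_congr rfl fun i _ => sum_coord (fun b : Fin D =>
      ind M (L (eb J k b).1.1) (eb J k b)) i, sum_const, card_univ, Fintype.card_fin,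
      smul_eq_mul, Fin.sum_univ_eq_sum_range (fun b => ind M (L (eb J k b).1.1) (eb J k b))]
    ring
  rw [sum_congr rfl fun k _ => h4 k, ← mul_sum, ← mul_sum,
    sum_sum_eb hreg (fun e => ind M (L e.1.1) e), ← numSat_eq]
  ring

/-- The best labels of the left vertices. -/
theorem exists_best_left {q₁ q₂ : ℕ} (hq₁ : 0 < q₁) (M : ℕ → Fin q₂) :
    ∃ L : ℕ → Fin q₁, ∀ (a : Fin q₁) (k : ℕ), k < J.length →
      ∑ b ∈ range D, ind M a (eb J k b) ≤
        ∑ b ∈ range D, ind M (L (eb J k b).1.1) (eb J k b) := by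
  have : Nonempty (Fin q₁) := ⟨⟨0, hq₁⟩⟩
  have h1 : ∀ u, ∃ a₀ : Fin q₁, ∀ a, ((atL J u).map (ind M a)).sum ≤
      ((atL J u).map (ind M a₀)).sum := fun u =>
    Finite.exists_max fun a : Fin q₁ => ((atL J u).map (ind M a)).sum
  choose L hL using h1
  refine ⟨L, fun a k hk => ?_⟩
  have h2 : ∀ a : Fin q₁, ∑ b ∈ range D, ind M a (eb J k b) =
      ((atL J (J.getD k ((0, 0), [])).1.1).map (ind M a)).sum := by
    intro a
    rw [← sum_range_getD, length_atL, hreg _ (getD_mem hk)]
    rfl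
  rw [h2, sum_congr rfl fun b hb => by rw [(eb_mem hreg hk (mem_range.1 hb)).2], h2]
  exact hL _ a

/-- Soundness at one left vertex. -/
theorem sound_one {d q₁ q₂ : ℕ} (hJ : IsGame d q₁ q₂ J) {k : ℕ} (hk : k < J.length)
    (A : (Fin r → Fin D) → Fin q₁) (M : Fin r → ℕ → Fin q₂) (L : Fin r → ℕ → Fin q₁)
    (hL : ∀ (i : Fin r) (a : Fin q₁), ∑ b ∈ range D, ind (M i) a (eb J k b) ≤
        ∑ b ∈ range D, ind (M i) (L i (eb J k b).1.1) (eb J k b)) :
    D * D * ∑ f : Fin r → Fin D, ∑ i : Fin r, ind (M i) (A f) (eb J k (f i)) ≤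
      D * D * D ^ r + D ^ r * r * (D * d) * ∑ j : Fin r,
        ∑ b ∈ range D, ind (M j) (L j (eb J k b).1.1) (eb J k b) := by
  have h1 : ∀ f : Fin r → Fin D, ∑ i : Fin r, ind (M i) (A f) (eb J k (f i)) ≤
      1 + ∑ i : Fin r, ∑ j ∈ univ.erase i, ∑ a : Fin q₁,
        ind (M i) a (eb J k (f i)) * ind (M j) a (eb J k (f j)) := by
    intro f
    refine (le_pairs (fun i => ind (M i) (A f) (eb J k (f i))) fun i => ind_le _ _ _).trans ?_
    refine Nat.add_le_add_left (sum_le_sum fun i _ => sum_le_sum fun j _ => ?_) 1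
    exact single_le_sum (f := fun a : Fin q₁ =>
      ind (M i) a (eb J k (f i)) * ind (M j) a (eb J k (f j))) (fun _ _ => Nat.zero_le _)
      (mem_univ (A f))
  have h2 : D * D * ∑ f : Fin r → Fin D, ∑ i : Fin r, ind (M i) (A f) (eb J k (f i)) ≤
      D * D * D ^ r + ∑ i : Fin r, ∑ j ∈ univ.erase i, ∑ a : Fin q₁, D ^ r *
        ((∑ b ∈ range D, ind (M i) a (eb J k b)) * ∑ b ∈ range D, ind (M j) a (eb J k b)) := by
    calc D * D * ∑ f : Fin r → Fin D, ∑ i : Fin r, ind (M i) (A f) (eb J k (f i))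
        ≤ D * D * ∑ f : Fin r → Fin D, (1 + ∑ i : Fin r, ∑ j ∈ univ.erase i, ∑ a : Fin q₁,
          ind (M i) a (eb J k (f i)) * ind (M j) a (eb J k (f j))) :=
          Nat.mul_le_mul_left _ (sum_le_sum fun f _ => h1 f)
      _ = D * D * D ^ r + ∑ i : Fin r, ∑ j ∈ univ.erase i, ∑ a : Fin q₁, D * D *
          ∑ f : Fin r → Fin D, ind (M i) a (eb J k (f i)) * ind (M j) a (eb J k (f j)) := by
          rw [sum_add_distrib, mul_add]
          congr 1
          · rw [sum_const, card_univ, Fintype.card_fun, Fintype.card_fin, Fintype.card_fin,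
              smul_eq_mul, mul_one]
          · rw [sum_comm, mul_sum]
            refine sum_congr rfl fun i _ => ?_
            rw [sum_comm, mul_sum]
            refine sum_congr rfl fun j _ => ?_
            rw [sum_comm, mul_sum]
      _ = _ := by
          congr 1
          refine sum_congr rfl fun i _ => sum_congr rfl fun j hj => sum_congr rfl fun a _ => ?_
          rw [sum_coord2 (fun b : Fin D => ind (M i) a (eb J k b))
            (fun b : Fin D => ind (M j) a (eb J k b)) (ne_of_mem_erase hj).symm,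
            Fin.sum_univ_eq_sum_range (fun b => ind (M i) a (eb J k b)),
            Fin.sum_univ_eq_sum_range (fun b => ind (M j) a (eb J k b))]
  refine h2.trans (Nat.add_le_add_left ?_ _)
  -- the number of labels
  have h3 : ∀ i : Fin r, ∑ a : Fin q₁, ∑ b ∈ range D, ind (M i) a (eb J k b) ≤ D * d := by
    intro i
    rw [sum_comm]
    calc ∑ b ∈ range D, ∑ a : Fin q₁, ind (M i) a (eb J k b) ≤ ∑ b ∈ range D, d := by
          refine sum_le_sum fun b hb => ?_
          unfold ind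
          rw [← card_filter]
          exact (RT.card_getElem_le _ _ _).trans
            ((hJ.2 _ (eb_mem hreg hk (mem_range.1 hb)).1).2.2 _)
      _ = D * d := by rw [sum_const, card_range, smul_eq_mul]
  calc ∑ i : Fin r, ∑ j ∈ univ.erase i, ∑ a : Fin q₁, D ^ r *
        ((∑ b ∈ range D, ind (M i) a (eb J k b)) * ∑ b ∈ range D, ind (M j) a (eb J k b))
      ≤ ∑ i : Fin r, ∑ j ∈ univ.erase i, D ^ r * (D * d *
        ∑ b ∈ range D, ind (M j) (L j (eb J k b).1.1) (eb J k b)) := by
        refine sum_le_sum fun i _ => sum_le_sum fun j _ => ?_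
        rw [← mul_sum]
        refine Nat.mul_le_mul_left _ ?_
        calc ∑ a : Fin q₁, (∑ b ∈ range D, ind (M i) a (eb J k b)) *
              ∑ b ∈ range D, ind (M j) a (eb J k b)
            ≤ ∑ a : Fin q₁, (∑ b ∈ range D, ind (M i) a (eb J k b)) *
              ∑ b ∈ range D, ind (M j) (L j (eb J k b).1.1) (eb J k b) :=
              sum_le_sum fun a _ => Nat.mul_le_mul_left _ (hL j a)
          _ = (∑ a : Fin q₁, ∑ b ∈ range D, ind (M i) a (eb J k b)) *
              ∑ b ∈ range D, ind (M j) (L j (eb J k b).1.1) (eb J k b) := by rw [sum_mul]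
          _ ≤ _ := Nat.mul_le_mul_right _ (h3 i)
    _ ≤ ∑ i : Fin r, ∑ j : Fin r, D ^ r * (D * d *
        ∑ b ∈ range D, ind (M j) (L j (eb J k b).1.1) (eb J k b)) :=
        sum_le_sum fun i _ => sum_le_sum_of_subset (erase_subset _ _)
    _ = _ := by
        rw [sum_const, card_univ, Fintype.card_fin, smul_eq_mul, mul_sum, mul_sum]
        refine sum_congr rfl fun j _ => ?_
        ring

/-- Soundness. -/
theorem sound_tup {d q₁ q₂ : ℕ} (hq₁ : 0 < q₁) (hJ : IsGame d q₁ q₂ J) (L' : ℕ → Fin q₁)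
    (M' : ℕ → Fin q₂) : ∃ (L : Fin r → ℕ → Fin q₁) (M : Fin r → ℕ → Fin q₂),
      numSat (tup r D J) L' M' ≤ D ^ r * J.length + D ^ r * r * d * ∑ j, numSat J (L j) (M j) := by
  choose L hL using fun i : Fin r => exists_best_left hD hreg hq₁ fun v => M' (r * v + i)
  refine ⟨L, fun i v => M' (r * v + i), ?_⟩
  have h1 : D * D * numSat (tup r D J) L' M' ≤
      D * D * (D ^ r * J.length + D ^ r * r * d *
        ∑ j, numSat J (L j) (fun v => M' (r * v + j))) := by
    rw [numSat_tup, mul_sum]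
    calc ∑ k ∈ range J.length, D * D * ∑ f : Fin r → Fin D, ∑ i : Fin r,
          ind (fun v => M' (r * v + i)) (L' (D ^ r * k + (finFunctionFinEquiv f : ℕ)))
            (eb J k (f i))
        ≤ ∑ k ∈ range J.length, (D * D * D ^ r + D ^ r * r * (D * d) * ∑ j : Fin r,
          ∑ b ∈ range D, ind (fun v => M' (r * v + j)) (L j (eb J k b).1.1) (eb J k b)) :=
          sum_le_sum fun k hk => sound_one hD hreg hJ (mem_range.1 hk)
            (fun f => L' (D ^ r * k + (finFunctionFinEquiv f : ℕ)))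
            (fun i v => M' (r * v + i)) L fun i a => hL i a k (mem_range.1 hk)
      _ = _ := by
          rw [sum_add_distrib, sum_const, card_range, smul_eq_mul, ← mul_sum, sum_comm,
            sum_congr rfl fun j _ => by
              rw [sum_sum_eb hreg (fun e => ind (fun v => M' (r * v + j)) (L j e.1.1) e),
                ← numSat_eq], ← mul_sum]
          ring
  exact Nat.le_of_mul_le_mul_left h1 (Nat.mul_pos hD hD)

theorem isGame_tup (hr : 0 < r) {d q₁ q₂ : ℕ} (hJ : IsGame d q₁ q₂ J) :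
    IsGame d q₁ q₂ (tup r D J) := by
  refine ⟨List.length_pos_iff.1 ?_, fun e he => ?_⟩
  · rw [length_tup]
    exact Nat.mul_pos (List.length_pos_iff.2 hJ.1) (Nat.mul_pos (Nat.pow_pos hD) hr)
  · obtain ⟨k, hk, x, _, i, _, rfl⟩ := mem_tup he
    have h := hJ.2 _ (eb_mem hreg hk (Nat.mod_lt (x / D ^ i) hD)).1
    exact h

theorem yes_tup (hr : 0 < r) {d q₁ q₂ : ℕ} {ε : ℝ} (hJ : Yes d q₁ q₂ ε J) :
    Yes d q₁ q₂ ε (tup r D J) := by
  obtain ⟨hG, L, M, hLM⟩ := hJ
  obtain ⟨L', M', h⟩ := complete_tup hD hreg hr L M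
  refine ⟨isGame_tup hD hreg hr hG, L', M', ?_⟩
  rw [h, length_tup]
  push_cast
  have h1 := mul_le_mul_of_nonneg_left hLM (show (0 : ℝ) ≤ (D : ℝ) ^ r * r by positivity)
  calc (1 - ε) * (J.length * ((D : ℝ) ^ r * r)) = (D : ℝ) ^ r * r * ((1 - ε) * J.length) := by ring
    _ ≤ _ := h1

theorem no_tup (hr : 0 < r) {d q₁ q₂ : ℕ} (hq₁ : 0 < q₁) {δ δ' : ℝ}
    (h : 1 + r * r * d * δ' ≤ δ * r) (hJ : No d q₁ q₂ δ' J) :
    No d q₁ q₂ δ (tup r D J) := by
  obtain ⟨hG, hno⟩ := hJ
  refine ⟨isGame_tup hD hreg hr hG, fun L' M' => ?_⟩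
  obtain ⟨L, M, h1⟩ := sound_tup (r := r) hD hreg hq₁ hG L' M'
  rw [length_tup]
  push_cast
  have h2 : (numSat (tup r D J) L' M' : ℝ) ≤
      (D : ℝ) ^ r * J.length + (D : ℝ) ^ r * r * d * ∑ j, (numSat J (L j) (M j) : ℝ) := by
    exact_mod_cast h1
  have h3 : ∑ j, (numSat J (L j) (M j) : ℝ) ≤ r * (δ' * J.length) := by
    calc ∑ j, (numSat J (L j) (M j) : ℝ) ≤ ∑ _j : Fin r, δ' * J.length :=
          sum_le_sum fun j _ => hno _ _
      _ = _ := by rw [sum_const, card_univ, Fintype.card_fin, nsmul_eq_mul]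
  have h4 : (0 : ℝ) ≤ (D : ℝ) ^ r * J.length := by positivity
  calc _ ≤ (D : ℝ) ^ r * J.length + (D : ℝ) ^ r * r * d * (r * (δ' * J.length)) :=
        h2.trans (by gcongr)
    _ = (D : ℝ) ^ r * J.length * (1 + r * r * d * δ') := by ring
    _ ≤ (D : ℝ) ^ r * J.length * (δ * r) := mul_le_mul_of_nonneg_left h h4
    _ = _ := by ring

end

/-! ### Regular games -/

open Pool.Agent.H697.LF in
theorem degL_of_lift {J : Game} (hS : Simple J) {V : Type} {G : SimpleGraph V} {n m : ℕ}
    (h : IsLift n (graphOf J) G) (hG : ∀ v, (G.neighborSet v).ncard = m) :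
    ∀ e ∈ J, degL J e.1.1 = m := by
  classical
  intro e he
  obtain ⟨φ, hφ, _⟩ := h
  have hadj : (UG.cgraph J).Adj (Sum.inl e.1.1) (Sum.inr e.1.2) :=
    cadj_lr.2 (List.mem_map_of_mem he)
  set w : (UG.cgraph J).support := ⟨Sum.inl e.1.1, (SimpleGraph.mem_support _).2 ⟨_, hadj⟩⟩
    with hw
  have h1 : ((graphOf J).neighborSet w).ncard = m := by
    rw [← hG (φ w), ← (hφ w).image_eq, (hφ w).injOn.ncard_image]
  have h2 : (Subtype.val '' ((graphOf J).neighborSet w) : Set (ℕ ⊕ ℕ)) =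
      Sum.inr '' (nR (edges J) e.1.1 : Set ℕ) := by
    ext y
    constructor
    · rintro ⟨z, hz, rfl⟩
      have hz' : (UG.cgraph J).Adj (Sum.inl e.1.1) z.1 := hz
      rcases hz1 : z.1 with u | v
      · rw [hz1] at hz'
        have := cadj_lr.1 (show (UG.cgraph J).Adj (Sum.inl e.1.1) (Sum.inr e.1.2) from hadj)
        exfalso
        unfold UG.cgraph Forest.bip at hz'
        simp at hz'
      · rw [hz1] at hz'
        have h3 := cadj_lr.1 hz'
        refine ⟨v, ?_, rfl⟩
        rw [mem_coe, mem_nR, mem_edges]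
        obtain ⟨e', he', h4⟩ := List.mem_map.1 h3
        exact ⟨e', he', h4⟩
    · rintro ⟨v, hv, rfl⟩
      rw [mem_coe, mem_nR, mem_edges] at hv
      obtain ⟨e', he', h4⟩ := hv
      have h5 : (UG.cgraph J).Adj (Sum.inl e.1.1) (Sum.inr v) :=
        cadj_lr.2 (List.mem_map.2 ⟨e', he', h4⟩)
      exact ⟨⟨Sum.inr v, (SimpleGraph.mem_support _).2 ⟨_, h5.symm⟩⟩, h5, rfl⟩
  rw [degL_eq hS, ← Set.ncard_coe_finset, ← Set.ncard_image_of_injective _ Sum.inr_injective,
    ← h2, Set.ncard_image_of_injective _ Subtype.val_injective, h1]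

/-- The general problem reduces to the problem for games with left degrees `r`, if the value of the
no-instances is allowed to be larger than `1 / r`. -/
theorem exists_reduction_left (d : ℕ) {r : ℕ} (hr : 0 < r) {δ : ℝ} (h : 1 / r < δ) :
    ∃ δ' : ℝ, 0 < δ' ∧ ∀ q₁ q₂ : ℕ, 0 < q₁ → 0 < q₂ →
      ∃ F : Game → Game, Poly F ∧ ∀ I, LeftReg r (F I) ∧
        (Yes d q₁ q₂ 0 I → Yes d q₁ q₂ 0 (F I)) ∧
        (∀ ε : ℝ, LF.Onto q₁ q₂ I → Yes d q₁ q₂ ε I → Yes d q₁ q₂ ε (F I)) ∧
        (No d q₁ q₂ δ' I → No d q₁ q₂ δ (F I)) := by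
  have hrr : (0 : ℝ) < r := by exact_mod_cast hr
  have h0 : 1 < δ * r := by rwa [div_lt_iff₀ hrr] at h
  set δ₁ : ℝ := (δ * r - 1) / (r * r * (d + 1)) with hδ₁
  have hpos : 0 < δ₁ := div_pos (by linarith) (by positivity)
  have h1 : 1 + r * r * d * δ₁ ≤ δ * r := by
    have h2 : (r : ℝ) * r * (d + 1) * δ₁ = δ * r - 1 := by
      rw [hδ₁]
      field_simp
    have h3 : 0 ≤ (r : ℝ) * r * δ₁ := by positivity
    nlinarith
  refine ⟨δ₁ / 2, by linarith, fun q₁ q₂ hq₁ hq₂ => ?_⟩
  obtain ⟨N, hN⟩ := LF.exists_reduction_LC_lift d hq₁ hq₂ (le_refl (0 : ℝ)) one_pos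
    (show δ₁ / 2 < δ₁ by linarith)
  set m := 2 * N + 1 with hm
  have hdeg : ∀ v : Fin (m + 1), ((⊤ : SimpleGraph (Fin (m + 1))).neighborSet v).ncard = m := by
    intro v
    rw [Set.ncard_eq_toFinset_card', ← SimpleGraph.neighborFinset,
      SimpleGraph.card_neighborFinset_eq_degree, SimpleGraph.complete_graph_degree,
      Fintype.card_fin]
    rfl
  obtain ⟨F, hF, hL, _, hY0, hY, hNo⟩ := hN (Fin (m + 1)) ⊤ 0 (fun a => by
      have : Nontrivial (Fin (m + 1)) := Fin.nontrivial_iff_two_le.2 (by omega)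
      obtain ⟨b, hb⟩ := exists_ne a
      exact ⟨b, hb.symm⟩) (by
      have h2 : (⊤ : SimpleGraph (Fin (m + 1))).edgeSet.ncard = (m + 1).choose 2 := by
        rw [Set.ncard_eq_toFinset_card', ← SimpleGraph.edgeFinset,
          SimpleGraph.card_edgeFinset_top_eq_card_choose_two, Fintype.card_fin]
      rw [h2, Nat.card_eq_fintype_card, Fintype.card_fin, Nat.choose_two_right, hm]
      have h3 : (2 * N + 1 + 1) * (2 * N + 1 + 1 - 1) = 2 * ((N + 1) * (2 * N + 1)) := by
        rw [Nat.add_sub_cancel]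
        ring
      rw [h3, Nat.mul_div_cancel_left _ (by norm_num)]
      nlinarith)
  have hreg : ∀ I, IsGame d q₁ q₂ I → ∀ e ∈ F I, degL (F I) e.1.1 = m := by
    intro I hI
    obtain ⟨hS, _, n, _, hl⟩ := hL I hI
    exact degL_of_lift hS hl hdeg
  have hm0 : 0 < m := by omega
  refine ⟨fun I => tup r m (F I), (poly_tup r m).comp hF, fun I => ⟨leftReg_tup r m (F I),
    fun hI => yes_tup hm0 (hreg I hI.1) hr (hY0 I hI),
    fun ε ho hI => yes_tup hm0 (hreg I hI.1) hr (hY I ε ho hI),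
    fun hI => no_tup hm0 (hreg I hI.1) hr hq₁ h1 (hNo I hI)⟩⟩

/-- Hardness of projection games with left degrees `r`. -/
theorem hard_left_LC (d : ℕ) {r : ℕ} (hr : 0 < r) {δ : ℝ} (h : 1 / r < δ) :
    ∃ δ' : ℝ, 0 < δ' ∧ ∀ q₁ q₂ : ℕ, 0 < q₁ → 0 < q₂ →
      (Hard (fun _ => True) (Yes d q₁ q₂ 0) (No d q₁ q₂ δ') →
        Hard (LeftReg r) (Yes d q₁ q₂ 0) (No d q₁ q₂ δ)) ∧
      (Easy (LeftReg r) (Yes d q₁ q₂ 0) (No d q₁ q₂ δ) →
        Easy (fun _ => True) (Yes d q₁ q₂ 0) (No d q₁ q₂ δ')) := by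
  obtain ⟨δ', hδ', hF⟩ := exists_reduction_left d hr h
  refine ⟨δ', hδ', fun q₁ q₂ hq₁ hq₂ => ?_⟩
  obtain ⟨F, hF, hFI⟩ := hF q₁ q₂ hq₁ hq₂
  exact ⟨fun hh => hh.of_reduction hF (fun I _ => (hFI I).1) (fun I => (hFI I).2.1)
    (fun I => (hFI I).2.2.2), fun hh => hh.of_reduction hF (fun I _ => (hFI I).1)
    (fun I => (hFI I).2.1) (fun I => (hFI I).2.2.2)⟩

theorem onto_UG {q : ℕ} {I : Game} (hI : UG.IsGame q I) : LF.Onto q q I := fun e he y =>
  (LF.perm_table (hI.2 e he).1 (hI.2 e he).2.1 (hI.2 e he).2.2).2 y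

/-- Hardness of unique games with left degrees `r`. -/
theorem hard_left_UG {r : ℕ} (hr : 0 < r) {δ : ℝ} (h : 1 / r < δ) :
    ∃ δ' : ℝ, 0 < δ' ∧ ∀ (q : ℕ) (ε : ℝ), 0 < q →
      (UG.Hard (fun _ => True) q ε δ' → UG.Hard (LeftReg r) q ε δ) ∧
      (UG.Easy (LeftReg r) q ε δ → UG.Easy (fun _ => True) q ε δ') := by
  obtain ⟨δ', hδ', hF⟩ := exists_reduction_left 1 hr h
  refine ⟨δ', hδ', fun q ε hq => ?_⟩
  obtain ⟨F, hF, hFI⟩ := hF q q hq hq
  have hY : ∀ I, UG.Yes q ε I → UG.Yes q ε (F I) := fun I hI =>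
    yes_UG_iff.2 ((hFI I).2.2.1 ε (onto_UG hI.1) (yes_UG_iff.1 hI))
  have hN : ∀ I, UG.No q δ' I → UG.No q δ (F I) := fun I hI =>
    no_UG_iff.2 ((hFI I).2.2.2 (no_UG_iff.1 hI))
  exact ⟨fun hh => hh.of_reduction hF (fun I _ => (hFI I).1) hY hN,
    fun hh => hh.of_reduction hF (fun I _ => (hFI I).1) hY hN⟩

theorem clustered_of_leftReg {r : ℕ} (hr : 0 < r) {J : Game} (hJ : J ≠ []) (h : LeftReg r J) :
    Clustered (1 / r) J := by
  classical
  refine ⟨h.1, ?_⟩
  have h1 := clus_ge_left hJ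
  have h2 : (edges J).card = ((edges J).image Prod.fst).card * r := by
    rw [card_eq_sum_card_image Prod.fst (edges J), sum_congr rfl fun u hu => ?_, sum_const,
      smul_eq_mul]
    obtain ⟨p, hp, rfl⟩ := mem_image.1 hu
    obtain ⟨e, he, rfl⟩ := mem_edges.1 hp
    rw [← card_nR, ← degL_eq h.1, h.2 e he]
  have hne := edges_nonempty hJ
  have hpos : (0 : ℝ) < (edges J).card := by exact_mod_cast card_pos.2 hne
  have hrr : (0 : ℝ) < r := by exact_mod_cast hr
  have h3 : ((edges J).card : ℝ) = ((edges J).image Prod.fst).card * r := by exact_mod_cast h2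
  rw [div_le_iff₀ hrr]
  have h4 : ((edges J).card : ℝ) ≤ clus J * r * (edges J).card := by
    calc ((edges J).card : ℝ) = ((edges J).image Prod.fst).card * r := h3
      _ ≤ (clus J * (edges J).card) * r := mul_le_mul_of_nonneg_right h1 hrr.le
      _ = _ := by ring
  exact le_of_mul_le_mul_right (by linarith) hpos

end Pool.Agent.H697.CL
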